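import Pool.Agent.TH925.SI.Graph
import Pool.Agent.H549R2.PM10

/-!
# Counting all matchings of split interval graphs is `#P`-complete
-/

namespace Pool.Agent.NPC.TH925SI

open Pool.Agent.H549R2.Convex Pool.Agent.H549R2.PM Pool.Agent.NPC.Cnt
open Pool.Agent.NPC.H549Convex (LL upoly_fact upoly_choose fp_of_poly)
open Pool.Agent.NPC.H549PM Pool.Agent.TH925.SI

section General

variable {α : Type} [TEnc α]

theorem den_poly {n : α → ℕ} (hn : UPoly n) : Poly (fun a => den (n a)) :=
  Poly.mul (Poly.mul (Poly.mul (upoly_fact hn) (upoly_fact hn)) (upoly_fact hn)) (upoly_pow2 hn)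

theorem trm_poly {n i j s g : α → ℕ} (hn : UPoly n) (hi : Poly i) (hj : Poly j) (hs : Poly s)
    (hg : Poly g) : Poly (fun a => trm (n a) (i a) (j a) (s a) (g a)) := by
  have hs2 : Poly (fun a => s a / 2) := Poly.div hs (Poly.const 2)
  have h1 : Poly (fun a => (n a).factorial / (min (i a) (n a)).factorial) :=
    Poly.div (upoly_fact hn) (upoly_fact (upoly_min hi hn))
  have h2 : Poly (fun a => (n a).factorial / (min (j a) (n a)).factorial) :=
    Poly.div (upoly_fact hn) (upoly_fact (upoly_min hj hn))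
  have h3 : Poly (fun a => (n a).factorial / (min (s a / 2) (n a)).factorial) :=
    Poly.div (upoly_fact hn) (upoly_fact (upoly_min hs2 hn))
  have h4 : UPoly (fun a => n a - s a / 2) :=
    UPoly.of_le (Poly.sub hn.toPoly hs2) hn (fun a => Nat.sub_le _ _)
  exact Poly.mul hg (Poly.mul (Poly.mul h1 h2) (Poly.mul h3 (upoly_pow2 h4)))

theorem inv3_poly {n : α → ℕ} {g : α → ℕ → ℕ} (hn : UPoly n)
    (hg : Poly (fun p : α × ℕ => g p.1 p.2)) (b : ℕ) : Poly (fun a => inv3 (n a) (g a) b) := by
  have hr : ∀ {β : Type} [TEnc β] {f : β → α}, Poly f →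
      Poly (fun x : β => List.range (n (f x) + 1)) := fun hf =>
    (UPoly.add (hn.comp hf) (UPoly.const 1)).range
  -- the innermost summand
  have hz : Poly (fun z : ((α × ℕ) × ℕ) × ℕ =>
      bif decide (z.1.1.2 + z.1.2 + z.2 ≤ n z.1.1.1) && (decide (z.2 % 2 = 0) &&
        decide ((z.1.1.2 + z.2 / 2) % 2 = b)) then
        trm (n z.1.1.1) z.1.1.2 z.1.2 z.2 (g z.1.1.1 z.1.1.2) else 0) := by
    have hi : Poly (fun z : ((α × ℕ) × ℕ) × ℕ => z.1.1.2) := Poly.snd (Poly.fst (Poly.fst Poly.id))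
    have ha : Poly (fun z : ((α × ℕ) × ℕ) × ℕ => z.1.1.1) := Poly.fst (Poly.fst (Poly.fst Poly.id))
    have hj : Poly (fun z : ((α × ℕ) × ℕ) × ℕ => z.1.2) := Poly.snd (Poly.fst Poly.id)
    have hs : Poly (fun z : ((α × ℕ) × ℕ) × ℕ => z.2) := Poly.snd Poly.id
    have hna : UPoly (fun z : ((α × ℕ) × ℕ) × ℕ => n z.1.1.1) := hn.comp ha
    refine Poly.cond (Poly.and (Poly.decide_le (Poly.add (Poly.add hi hj) hs) hna.toPoly)
      (Poly.and (Poly.decide_eq (Poly.mod hs (Poly.const 2)) (Poly.const 0))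
        (Poly.decide_eq (Poly.mod (Poly.add hi (Poly.div hs (Poly.const 2))) (Poly.const 2))
          (Poly.const b)))) (trm_poly hna hi hj hs ?_) (Poly.const 0)
    exact hg.comp (f := fun z : ((α × ℕ) × ℕ) × ℕ => (z.1.1.1, z.1.1.2)) (Poly.pair ha hi)
  have h3 : Poly (fun y : (α × ℕ) × ℕ => ((List.range (n y.1.1 + 1)).map fun s =>
      bif decide (y.1.2 + y.2 + s ≤ n y.1.1) && (decide (s % 2 = 0) &&
        decide ((y.1.2 + s / 2) % 2 = b)) then
        trm (n y.1.1) y.1.2 y.2 s (g y.1.1 y.1.2) else 0).sum) :=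
    Poly.sum (Poly.map (F := fun (y : (α × ℕ) × ℕ) (s : ℕ) =>
      bif decide (y.1.2 + y.2 + s ≤ n y.1.1) && (decide (s % 2 = 0) &&
        decide ((y.1.2 + s / 2) % 2 = b)) then
        trm (n y.1.1) y.1.2 y.2 s (g y.1.1 y.1.2) else 0) (hr (Poly.fst (Poly.fst Poly.id))) hz)
  have h2 : Poly (fun x : α × ℕ => ((List.range (n x.1 + 1)).map fun j =>
      ((List.range (n x.1 + 1)).map fun s =>
      bif decide (x.2 + j + s ≤ n x.1) && (decide (s % 2 = 0) &&
        decide ((x.2 + s / 2) % 2 = b)) then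
        trm (n x.1) x.2 j s (g x.1 x.2) else 0).sum).sum) :=
    Poly.sum (Poly.map (F := fun (x : α × ℕ) (j : ℕ) => ((List.range (n x.1 + 1)).map fun s =>
      bif decide (x.2 + j + s ≤ n x.1) && (decide (s % 2 = 0) &&
        decide ((x.2 + s / 2) % 2 = b)) then
        trm (n x.1) x.2 j s (g x.1 x.2) else 0).sum) (hr (Poly.fst Poly.id)) h3)
  exact Poly.sum (Poly.map (F := fun (a : α) (i : ℕ) => ((List.range (n a + 1)).map fun j =>
      ((List.range (n a + 1)).map fun s =>
      bif decide (i + j + s ≤ n a) && (decide (s % 2 = 0) &&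
        decide ((i + s / 2) % 2 = b)) then
        trm (n a) i j s (g a i) else 0).sum).sum) (hr Poly.id) h2)

theorem inv_poly {n : α → ℕ} {g : α → ℕ → ℕ} (hn : UPoly n)
    (hg : Poly (fun p : α × ℕ => g p.1 p.2)) : Poly (fun a => inv (n a) (g a)) :=
  Poly.div (Poly.sub (inv3_poly hn hg 0) (inv3_poly hn hg 1)) (den_poly hn)

end General

section Reduction

/-- a bound for the left endpoints -/
def bd (l : List (ℕ × ℕ)) : ℕ := (l.map Prod.fst).sum

theorem bd_poly : Poly bd :=
  Poly.sum (Poly.map (F := fun (_ : List (ℕ × ℕ)) (r : ℕ × ℕ) => r.1) Poly.id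
    (Poly.fst (Poly.snd Poly.id)))

theorem le_bd (l : List (ℕ × ℕ)) (r : ℕ × ℕ) (hr : r ∈ l) : r.1 ≤ bd l :=
  List.single_le_sum (fun _ _ => Nat.zero_le _) _ (List.mem_map_of_mem hr)

/-- a bound for the lengths of the queries -/
def NF (φ : CNF ℕ) : ℕ := (qs φ).flatten.length

theorem NF_upoly : UPoly NF := UPoly.length (Poly.flatten (l := qs) qs_poly)

theorem le_NF (φ : CNF ℕ) (l : List (ℕ × ℕ)) (hl : l ∈ qs φ) : l.length ≤ NF φ := by
  rw [NF, List.length_flatten]
  exact List.single_le_sum (fun _ _ => Nat.zero_le _) _ (List.mem_map_of_mem hl)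

/-- the list of intervals of query number `i` -/
def lst (φ : CNF ℕ) (i : ℕ) : List (ℕ × ℕ) := (qs φ).getD (i / (NF φ + 1)) []

/-- the queries -/
def qsM (φ : CNF ℕ) : List (List (ℕ × ℕ)) :=
  (List.range ((qs φ).length * (NF φ + 1))).map
    (fun i => ext (bd (lst φ i)) (i % (NF φ + 1)) (lst φ i))

theorem lst_poly : Poly (fun p : CNF ℕ × ℕ => lst p.1 p.2) := by
  have hN : Poly (fun p : CNF ℕ × ℕ => NF p.1 + 1) :=
    Poly.succ (NF_upoly.toPoly.comp (Poly.fst Poly.id))
  exact Poly.getD (qs_poly.comp (Poly.fst Poly.id)) (Poly.div (Poly.snd Poly.id) hN)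
    (Poly.const [])

theorem qsM_poly : Poly qsM := by
  have hN : UPoly (fun φ : CNF ℕ => (qs φ).length * (NF φ + 1)) :=
    UPoly.mul (UPoly.length (l := qs) qs_poly) (UPoly.add NF_upoly (UPoly.const 1))
  refine Poly.map (F := fun (φ : CNF ℕ) i =>
    ext (bd (lst φ i)) (i % (NF φ + 1)) (lst φ i)) hN.range ?_
  have hN1 : UPoly (fun p : CNF ℕ × ℕ => NF p.1 + 1) :=
    UPoly.add (NF_upoly.comp (Poly.fst Poly.id)) (UPoly.const 1)
  have hm : UPoly (fun p : CNF ℕ × ℕ => p.2 % (NF p.1 + 1)) :=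
    UPoly.of_le (Poly.mod (Poly.snd Poly.id) hN1.toPoly) hN1
      (fun p => (Nat.mod_lt _ (Nat.succ_pos _)).le)
  exact Poly.append (UPoly.replicate hm (Poly.pair (Poly.const 0) (bd_poly.comp lst_poly)))
    lst_poly

/-- the numbers of perfect matchings from the answers -/
def ansPM (p : CNF ℕ × List ℕ) : List ℕ :=
  (List.range (qs p.1).length).map
    (fun i => inv (NF p.1) (fun m => p.2.getD (i * (NF p.1 + 1) + m) 0))

theorem ansPM_poly : Poly ansPM := by
  have hr : Poly (fun p : CNF ℕ × List ℕ => List.range (qs p.1).length) :=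
    Poly.range_length (qs_poly.comp (Poly.fst Poly.id))
  refine Poly.map (F := fun (p : CNF ℕ × List ℕ) i =>
    inv (NF p.1) (fun m => p.2.getD (i * (NF p.1 + 1) + m) 0)) hr ?_
  have hN : UPoly (fun p : (CNF ℕ × List ℕ) × ℕ => NF p.1.1) :=
    NF_upoly.comp (Poly.fst (Poly.fst Poly.id))
  refine inv_poly (g := fun (p : (CNF ℕ × List ℕ) × ℕ) m =>
    p.1.2.getD (p.2 * (NF p.1.1 + 1) + m) 0) hN ?_
  have hN' : Poly (fun z : ((CNF ℕ × List ℕ) × ℕ) × ℕ => NF z.1.1.1 + 1) :=
    Poly.succ (NF_upoly.toPoly.comp (Poly.fst (Poly.fst (Poly.fst Poly.id))))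
  exact Poly.getD (Poly.snd (Poly.fst (Poly.fst Poly.id)))
    (Poly.add (Poly.mul (Poly.snd (Poly.fst Poly.id)) hN') (Poly.snd Poly.id)) (Poly.const 0)

/-- the final computation -/
def postM (p : CNF ℕ × List ℕ) : ℕ := post (p.1, ansPM p)

theorem postM_poly : Poly postM :=
  post_poly.comp (f := fun p : CNF ℕ × List ℕ => (p.1, ansPM p))
    (Poly.pair (Poly.fst Poly.id) ansPM_poly)

theorem qry_ok (A : LL) (u : ℕ) : ∀ r ∈ qry A u, r.1 ≤ r.2 := by
  intro r hr
  rw [qry, withPts, List.mem_append] at hr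
  rcases hr with hr | hr
  · rw [ivL, List.mem_map] at hr
    obtain ⟨x, _, rfl⟩ := hr
    have : 1 ≤ cen A := by rw [cen]; omega
    simp only [iv]
    omega
  · rw [List.mem_map] at hr
    obtain ⟨p, _, rfl⟩ := hr
    exact le_rfl

theorem ext_withPts (B m : ℕ) (RS : List (ℕ × ℕ)) (CL : List ℕ) :
    ext B m (withPts RS CL) = withPts (List.replicate m (0, B) ++ RS) CL := by
  rw [ext, withPts, withPts, List.append_assoc]

theorem split_ext_qry (A : LL) (u m : ℕ) :
    IsSplit (intervalGraph (ext (bd (qry A u)) m (qry A u))) := by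
  have hc : 1 ≤ cen A := by rw [cen]; omega
  have hb : A.length ≤ bd (qry A u) := by
    apply le_bd (qry A u) (A.length, A.length)
    rw [qry, withPts, List.mem_append]
    right
    rw [List.mem_map]
    exact ⟨A.length, by rw [List.mem_range]; omega, rfl⟩
  rw [show qry A u = withPts (ivL A (uF (A, u))) (List.range (2 * A.length + cen A)) from rfl]
    at hb ⊢
  rw [ext_withPts]
  apply isSplit_withPts _ _ List.nodup_range A.length
  intro r hr
  rw [List.mem_append, List.mem_replicate] at hr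
  rcases hr with ⟨_, rfl⟩ | hr
  · exact ⟨Nat.zero_le _, hb⟩
  · rw [ivL, List.mem_map] at hr
    obtain ⟨x, _, rfl⟩ := hr
    simp only [iv]
    constructor <;> omega

theorem mem_qs (φ : CNF ℕ) (l : List (ℕ × ℕ)) (hl : l ∈ qs φ) :
    ∃ (A : LL) (u : ℕ), l = qry A u := by
  rw [qs, List.mem_map] at hl
  obtain ⟨i, _, rfl⟩ := hl
  exact ⟨_, _, rfl⟩

/-- **Correctness of the reduction.** -/
theorem ansPM_correct (φ : CNF ℕ) (g : List (ℕ × ℕ) → ℕ)
    (hg : ∀ l, IsSplit (intervalGraph l) → g l = numM l) :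
    ansPM (φ, (qsM φ).map g) = (qs φ).map pm := by
  apply List.ext_getElem
  · rw [ansPM, List.length_map, List.length_map, List.length_range]
  · intro i h1 h2
    rw [List.length_map] at h2
    have hl : (qs φ)[i] ∈ qs φ := List.getElem_mem h2
    obtain ⟨A, u, hAu⟩ := mem_qs φ _ hl
    simp only [ansPM, List.getElem_map, List.getElem_range]
    rw [← pm_eq_inv (bd ((qs φ)[i])) ((qs φ)[i]) (fun r hr => ⟨by
      rw [hAu] at hr
      exact qry_ok A u r hr, le_bd _ r hr⟩) (NF φ) (le_NF φ _ hl)]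
    apply inv_congr
    intro m hm
    have hidx : i * (NF φ + 1) + m < (qs φ).length * (NF φ + 1) := by
      have := Nat.mul_le_mul_right (NF φ + 1) (Nat.succ_le_of_lt h2)
      have e : (i + 1) * (NF φ + 1) = i * (NF φ + 1) + (NF φ + 1) := by ring
      have e' : Nat.succ i * (NF φ + 1) = (i + 1) * (NF φ + 1) := rfl
      omega
    have hlq : i * (NF φ + 1) + m < ((qsM φ).map g).length := by
      simp only [qsM, List.length_map, List.length_range]
      exact hidx
    rw [List.getD_eq_getElem _ _ hlq, List.getElem_map]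
    have e1 : (i * (NF φ + 1) + m) / (NF φ + 1) = i := by
      rw [mul_comm, Nat.mul_add_div (by omega), Nat.div_eq_of_lt (by omega), add_zero]
    have e2 : (i * (NF φ + 1) + m) % (NF φ + 1) = m := by
      rw [mul_comm, Nat.mul_add_mod, Nat.mod_eq_of_lt (by omega)]
    have e3 : lst φ (i * (NF φ + 1) + m) = (qs φ)[i] := by
      rw [lst, e1, List.getD_eq_getElem _ _ h2]
    have h3 : (qsM φ)[i * (NF φ + 1) + m]'(by simpa using hlq) =
        ext (bd ((qs φ)[i])) m ((qs φ)[i]) := by
      simp only [qsM, List.getElem_map, List.getElem_range]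
      rw [e2, e3]
    rw [h3, hg _ (by rw [hAu]; exact split_ext_qry A u m)]

theorem postM_correct (φ : CNF ℕ) (g : List (ℕ × ℕ) → ℕ)
    (hg : ∀ l, IsSplit (intervalGraph l) → g l = numM l) :
    postM (φ, (qsM φ).map g) = satCount φ := by
  rw [postM, ansPM_correct φ g hg]
  exact post_correct φ pm (fun _ _ => rfl)

end Reduction

section Membership

/-- test of one entry of a certificate -/
def certM1 (x : (List (ℕ × ℕ) × List ℕ) × ℕ) : Bool :=
  decide (x.1.2.getD x.2 0 < x.1.1.length) && (decide (x.1.2.getD (x.1.2.getD x.2 0) 0 = x.2) &&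
    (decide (x.1.2.getD x.2 0 = x.2) ||
      meetB (x.1.1.getD x.2 (0, 0)) (x.1.1.getD (x.1.2.getD x.2 0) (0, 0))))

/-- test of a certificate: the list of the partners of all vertices, unmatched vertices being
their own partners -/
def certM (l : List (ℕ × ℕ)) (c : List ℕ) : Bool :=
  decide (c.length = l.length) && (List.range l.length).all (fun i => certM1 ((l, c), i))

theorem certM_poly : Poly (fun x : List (ℕ × ℕ) × List ℕ => certM x.1 x.2) := by
  have h0 : Poly (fun x : List (ℕ × ℕ) × List ℕ => decide (x.2.length = x.1.length)) :=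
    Poly.decide_eq (Poly.length (Poly.snd Poly.id)) (Poly.length (Poly.fst Poly.id))
  have hl : Poly (fun x : (List (ℕ × ℕ) × List ℕ) × ℕ => x.1.1) := Poly.fst (Poly.fst Poly.id)
  have hc : Poly (fun x : (List (ℕ × ℕ) × List ℕ) × ℕ => x.1.2) := Poly.snd (Poly.fst Poly.id)
  have hi : Poly (fun x : (List (ℕ × ℕ) × List ℕ) × ℕ => x.2) := Poly.snd Poly.id
  have h1 : Poly (fun x : (List (ℕ × ℕ) × List ℕ) × ℕ => x.1.2.getD x.2 0) :=
    Poly.getD hc hi (Poly.const 0)
  have h2 : Poly (fun x : (List (ℕ × ℕ) × List ℕ) × ℕ => x.1.2.getD (x.1.2.getD x.2 0) 0) :=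
    Poly.getD hc h1 (Poly.const 0)
  have h3 : Poly (fun x : (List (ℕ × ℕ) × List ℕ) × ℕ => x.1.1.getD x.2 (0, 0)) :=
    Poly.getD hl hi (Poly.const (0, 0))
  have h4 : Poly (fun x : (List (ℕ × ℕ) × List ℕ) × ℕ => x.1.1.getD (x.1.2.getD x.2 0) (0, 0)) :=
    Poly.getD hl h1 (Poly.const (0, 0))
  have h5 : Poly (fun x : (List (ℕ × ℕ) × List ℕ) × ℕ => meetB (x.1.1.getD x.2 (0, 0))
      (x.1.1.getD (x.1.2.getD x.2 0) (0, 0))) :=
    Poly.decide_le (Poly.max (Poly.fst h3) (Poly.fst h4)) (Poly.min (Poly.snd h3) (Poly.snd h4))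
  have h6 : Poly certM1 := Poly.and (Poly.decide_lt h1 (Poly.length hl))
    (Poly.and (Poly.decide_eq h2 hi) (Poly.or (Poly.decide_eq h1 hi) h5))
  exact Poly.and h0 (Poly.all (p := fun (x : List (ℕ × ℕ) × List ℕ) i => certM1 (x, i))
    (Poly.range_length (Poly.fst Poly.id)) h6)

theorem certM_iff (l : List (ℕ × ℕ)) (w : List ℕ) : certM l w = true ↔
    ∃ h : w.length = l.length, ∃ f : Fin l.length → Fin l.length,
      (∀ i : Fin l.length, (f i).val = w[i.val]) ∧ IsInv (intervalGraph l) f := by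
  rw [certM, Bool.and_eq_true, decide_eq_true_eq, List.all_eq_true]
  constructor
  · rintro ⟨hlen, h⟩
    refine ⟨hlen, ?_⟩
    have hall : ∀ i : Fin l.length, w[i.val] < l.length ∧ w.getD w[i.val] 0 = i.val ∧
        (w[i.val] = i.val ∨ meetB l[i.val] (l.getD w[i.val] (0, 0)) = true) := by
      intro i
      have h1 := h i.val (List.mem_range.2 i.2)
      simp only [certM1, Bool.and_eq_true, Bool.or_eq_true, decide_eq_true_eq] at h1
      rw [List.getD_eq_getElem w _ (by omega), List.getD_eq_getElem l _ i.2] at h1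
      exact h1
    refine ⟨fun i => ⟨w[i.val], (hall i).1⟩, fun i => rfl, fun i => ?_, fun i hi => ?_⟩
    · apply Fin.ext
      simp only
      have h2 := (hall i).2.1
      rw [List.getD_eq_getElem w _ (by have := (hall i).1; omega)] at h2
      exact h2
    · refine ⟨fun h' => hi h'.symm, ?_⟩
      rcases (hall i).2.2 with h2 | h2
      · exact absurd (Fin.ext h2) hi
      · rw [List.getD_eq_getElem l _ (hall i).1, meetB_iff] at h2
        exact h2
  · rintro ⟨hlen, f, hf1, hf2, hf3⟩
    refine ⟨hlen, fun i hi => ?_⟩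
    rw [List.mem_range] at hi
    simp only [certM1, Bool.and_eq_true, Bool.or_eq_true, decide_eq_true_eq]
    have h1 : w.getD i 0 = (f ⟨i, hi⟩).val := by
      rw [List.getD_eq_getElem w _ (by omega)]
      exact (hf1 ⟨i, hi⟩).symm
    rw [h1]
    refine ⟨(f ⟨i, hi⟩).2, ?_, ?_⟩
    · rw [List.getD_eq_getElem w _ (by rw [hlen]; exact (f ⟨i, hi⟩).2), ← hf1 (f ⟨i, hi⟩), hf2]
    · by_cases h' : f ⟨i, hi⟩ = ⟨i, hi⟩
      · left
        exact congrArg Fin.val h'
      · right
        rw [List.getD_eq_getElem l _ hi, List.getD_eq_getElem l _ (f ⟨i, hi⟩).2, meetB_iff]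
        exact (hf3 ⟨i, hi⟩ h').2

theorem card_certM (l : List (ℕ × ℕ)) : Nat.card {w : List ℕ // certM l w = true} = numM l := by
  rw [numM, card_numM]
  symm
  refine Nat.card_congr (Equiv.ofBijective
    (fun f : Inv (intervalGraph l) => (⟨List.ofFn (fun i => (f.1 i).val), ?_⟩ :
      {w : List ℕ // certM l w = true})) ⟨?_, ?_⟩)
  · rw [certM_iff]
    exact ⟨List.length_ofFn, f.1, fun i => by rw [List.getElem_ofFn], f.2⟩
  · intro f g h
    apply Subtype.ext
    have h1 := congrArg Subtype.val h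
    simp only at h1
    have h2 := List.ofFn_injective h1
    funext i
    exact Fin.ext (congrFun h2 i)
  · rintro ⟨w, hc⟩
    obtain ⟨hlen, f, hf1, hf2⟩ := (certM_iff l w).1 hc
    refine ⟨⟨f, hf2⟩, ?_⟩
    apply Subtype.ext
    simp only
    apply List.ext_getElem
    · rw [List.length_ofFn, hlen]
    · intro i h1 h2
      rw [List.getElem_ofFn]
      exact hf1 ⟨i, by omega⟩

theorem sharpP_numM : SharpP (strFn numM) := by
  have h := sharpP_typed certM certM_poly
    (Polynomial.X * (Polynomial.C 4 * Polynomial.X + Polynomial.C 2) + Polynomial.C 1) ?_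
  · have e : (fun l : List (ℕ × ℕ) => Nat.card {w : List ℕ // certM l w = true}) = numM :=
      funext card_certM
    rw [e] at h
    exact h
  · intro l w hc
    obtain ⟨hlen, f, hf1, hf2⟩ := (certM_iff l w).1 hc
    have h1 : ∀ a ∈ w, sz a ≤ 4 * l.length + 1 := by
      intro a ha
      obtain ⟨i, hi, rfl⟩ := List.mem_iff_getElem.1 ha
      have h2 : w[i] < l.length := by
        rw [← hf1 ⟨i, by omega⟩]
        exact (f _).2
      have h3 := sz_nat_le w[i]
      have h4 : (w[i]).size ≤ w[i] := Nat.size_le.2 Nat.lt_two_pow_self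
      omega
    have h2 := sz_le_length_mul w _ h1
    have h3 := length_lt_sz l
    simp only [Polynomial.eval_add, Polynomial.eval_mul, Polynomial.eval_X, Polynomial.eval_C]
    have h4 : w.length * (4 * l.length + 1 + 1) ≤ sz l * (4 * sz l + 2) :=
      Nat.mul_le_mul (by omega) (by omega)
    omega

theorem numM_size (l : List (ℕ × ℕ)) : (numM l).size ≤ l.length * l.length + 1 := by
  have h1 : numM l ≤ l.length ^ l.length := by
    rw [numM, card_numM]
    have h2 : Nat.card (Inv (intervalGraph l)) ≤ Nat.card (Fin l.length → Fin l.length) :=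
      Nat.card_le_card_of_injective _ Subtype.val_injective
    rw [Nat.card_eq_fintype_card (α := Fin l.length → Fin l.length), Fintype.card_fun,
      Fintype.card_fin] at h2
    exact h2
  have h3 : l.length ^ l.length ≤ (2 ^ l.length) ^ l.length :=
    Nat.pow_le_pow_left (Nat.lt_two_pow_self).le _
  rw [← pow_mul] at h3
  have h4 : 2 ^ (l.length * l.length) < 2 ^ (l.length * l.length + 1) :=
    Nat.pow_lt_pow_right (by norm_num) (by omega)
  rw [Nat.size_le]
  omega

end Membership

section Main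

open Classical in
/-- The number of matchings of an interval graph that is also a split graph; other inputs have
value `0`. -/
noncomputable def numMSplit (l : List (ℕ × ℕ)) : ℕ :=
  if IsSplit (intervalGraph l) then numM l else 0

theorem size_boundM (g : List (ℕ × ℕ) → ℕ) (hg : ∀ l, g l = numM l ∨ g l = 0) (l : List (ℕ × ℕ)) :
    (g l).size ≤ (Polynomial.X * Polynomial.X + Polynomial.C 1 : Polynomial ℕ).eval (sz l) := by
  have h1 : (g l).size ≤ l.length * l.length + 1 := by
    rcases hg l with h | h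
    · rw [h]
      exact numM_size l
    · rw [h]
      simp
  have h2 := length_lt_sz l
  simp only [Polynomial.eval_add, Polynomial.eval_mul, Polynomial.eval_X, Polynomial.eval_C]
  have := Nat.mul_le_mul h2.le h2.le
  omega

theorem hardM_of (g : List (ℕ × ℕ) → ℕ) (hg : ∀ l, IsSplit (intervalGraph l) → g l = numM l)
    (hg' : ∀ l, g l = numM l ∨ g l = 0) : SharpPHard (strFn g) :=
  sharpPHard_of_satCount qsM postM qsM_poly postM_poly (fun φ => (postM_correct φ g hg).symm) _
    (size_boundM g hg')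

theorem hard_numM : SharpPHard (strFn numM) := hardM_of numM (fun _ _ => rfl) (fun _ => Or.inl rfl)

theorem hard_numMSplit : SharpPHard (strFn numMSplit) := by
  refine hardM_of numMSplit (fun l hl => ?_) (fun l => ?_)
  · rw [numMSplit, if_pos hl]
  · by_cases hl : IsSplit (intervalGraph l)
    · exact Or.inl (by rw [numMSplit, if_pos hl])
    · exact Or.inr (by rw [numMSplit, if_neg hl])

theorem fp_iff_numM : (∀ f : List Bool → ℕ, SharpP f → FP f) ↔
    ∃ g : List Bool → List Bool, PolyTime g ∧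
      ∀ l : List (ℕ × ℕ), IsSplit (intervalGraph l) → g (bits l) = (numM l).bits := by
  constructor
  · intro h
    exact ⟨_, h _ sharpP_numM, fun l _ => by rw [strFn_bits]⟩
  · rintro ⟨g, hg, hgF⟩ f hf
    have hid : PC (bits : List (ℕ × ℕ) → List Bool) (id : List Bool → List Bool)
        (fun l => bits l) :=
      (PC.id : PC (bits : List (ℕ × ℕ) → List Bool) bits (fun l => l))
    have h1 : PC (bits : List (ℕ × ℕ) → List Bool) (id : List Bool → List Bool)
        (fun l => g (bits l)) :=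
      PC.comp (Pool.Agent.H642R2.TMSim.polyTime_toPC hg) hid
    have h2 : PC (bits : List (ℕ × ℕ) → List Bool) (bits : List Bool → List Bool)
        (fun l => g (bits l)) :=
      PC.comp (g := fun x : List Bool => x) (f := fun l : List (ℕ × ℕ) => g (bits l)) PC.ofBits h1
    have h3 : Poly (fun l : List (ℕ × ℕ) => valB (g (bits l))) := Poly.valBits h2
    set G : List (ℕ × ℕ) → ℕ := fun l => valB (g (bits l)) with hG
    have hGF : ∀ l, IsSplit (intervalGraph l) → G l = numM l := by
      intro l hl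
      rw [hG]
      simp only
      rw [hgF l hl, valB_bits]
    have h4 : Poly (fun φ : CNF ℕ => postM (φ, (qsM φ).map G)) := by
      have h5 : Poly (fun φ : CNF ℕ => (qsM φ).map G) :=
        Poly.map (F := fun (_ : CNF ℕ) B => G B) qsM_poly (h3.comp (Poly.snd Poly.id))
      exact postM_poly.comp (f := fun φ : CNF ℕ => (φ, (qsM φ).map G)) (Poly.pair Poly.id h5)
    have h5 : Poly (fun φ : CNF ℕ => satCount φ) := h4.congr fun φ => postM_correct φ G hGF
    obtain ⟨V, p, hV, hf⟩ := hf
    obtain ⟨G', hG', hGf⟩ := parsimonious hV p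
    have h6 : Poly G' := PC.comp hG' pc_raw
    have h7 : Poly (fun x : List Bool => satCount (G' x)) := h5.comp (f := G') h6
    have h8 : Poly f := h7.congr fun x => by rw [hf x, ← hGf x]
    exact fp_of_poly h8

end Main

end Pool.Agent.NPC.TH925SI
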