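import Pool.Agent.TH925.SI.Split
import Pool.Agent.H276R3.Hard

/-!
# `PP = NP ∪ coNP` and certificates for the numbers of matchings
-/

namespace Pool.Agent.NPC.TH925SI

open Pool.Agent.NPC.Cnt Pool.Agent.NPC.Med Pool.Agent.NPC.G276

/-! ### `PP = NP ∪ coNP` iff `PP ⊆ NP` -/

theorem countP_of_verifier {V : List Bool → List Bool} (hV : PolyTime V) (p : Polynomial ℕ) :
    CountP (fun x : List Bool => Nat.card {w : List Bool // w.length = p.eval x.length ∧
      V (pairBits x w) = [true]}) :=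
  countP_of_sharpP ⟨V, p, hV, fun _ => rfl⟩

theorem pp_count {L : Set (List Bool)} (hL : InPPc L) : ∃ F G : List Bool → ℕ,
    CountP F ∧ CountP G ∧ ∀ x, x ∈ L ↔ F x < G x := by
  obtain ⟨V, p, hV, hL⟩ := hL
  refine ⟨fun x => 2 ^ p.eval x.length, fun x => 2 * Nat.card {w : List Bool //
    w.length = p.eval x.length ∧ V (pairBits x w) = [true]},
    CountP.ofPoly (poly_two_pow (uPoly_evalLen Poly.id p)),
    CountP.mul (CountP.const 2) (countP_of_verifier hV p), hL⟩

theorem compl_pp {L : Set (List Bool)} (hL : InPPc L) : InPPc Lᶜ := by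
  obtain ⟨F, G, hF, hG, h⟩ := pp_count hL
  have h1 := inPP_lt_raw hG (hF.add (CountP.const 1))
  have e : Lᶜ = {x | G x < F x + 1} := by
    ext x
    rw [Set.mem_compl_iff, h x, Set.mem_ofPred_eq]
    omega
  rw [e]
  exact h1

/-- the disjoint union of two languages -/
def join (L L' : Set (List Bool)) : Set (List Bool) :=
  {x | (x.head?.getD false = true ∧ x.tail ∈ L) ∨ (x.head?.getD false = false ∧ x.tail ∈ L')}

theorem join_pp {L L' : Set (List Bool)} (hL : InPPc L) (hL' : InPPc L') :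
    InPPc (join L L') := by
  obtain ⟨F, G, hF, hG, h⟩ := pp_count hL
  obtain ⟨F', G', hF', hG', h'⟩ := pp_count hL'
  have hh : Poly (fun x : List Bool => x.head?.getD false) := Poly.head?_getD Poly.id false
  have ht : Poly (fun x : List Bool => x.tail) := Poly.tail Poly.id
  have h1 := inPP_lt_raw (countP_cond hh (hF.comp ht) (hF'.comp ht))
    (countP_cond hh (hG.comp ht) (hG'.comp ht))
  have e : join L L' = {x | (bif x.head?.getD false then F x.tail else F' x.tail) <
      bif x.head?.getD false then G x.tail else G' x.tail} := by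
    ext x
    rw [join, Set.mem_ofPred_eq, Set.mem_ofPred_eq]
    cases hx : x.head?.getD false with
    | true => simp [h]
    | false => simp [h']
  rw [e]
  exact h1

theorem inNPP_raw {L : Set (List Bool)} (h : InNP L) : InNPP (fun x : List Bool => x ∈ L) := by
  obtain ⟨V, p, hV, hL⟩ := h
  refine of_cert (β := List Bool) (R := fun z => decide (z.2.length ≤ p.eval z.1.length) &&
    decide (V (pairBits z.1 z.2) = [true])) ?_ (Polynomial.C 4 * p + Polynomial.C 1) ?_ ?_
  · have h1 : Poly (fun z : List Bool × List Bool => p.eval z.1.length) :=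
      (uPoly_evalLen (x := fun z : List Bool × List Bool => z.1) (Poly.fst Poly.id) p).toPoly
    have h2 : Poly (fun z : List Bool × List Bool => V (pairBits z.1 z.2)) :=
      (poly_of_polyTime hV).comp (poly_pairBits (Poly.fst Poly.id) (Poly.snd Poly.id))
    exact Poly.and (Poly.decide_le (Poly.length (Poly.snd Poly.id)) h1)
      (Poly.decide_eq h2 (Poly.const [true]))
  · intro x w h
    rw [Bool.and_eq_true, decide_eq_true_eq, decide_eq_true_eq] at h
    exact (hL x).2 ⟨w, h.1, h.2⟩
  · intro x hx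
    obtain ⟨w, h1, h2⟩ := (hL x).1 hx
    refine ⟨w, ?_, ?_⟩
    · have h3 := sz_listBool_le w
      have h4 := eval_mono p (length_lt_sz x).le
      simp only [Polynomial.eval_add, Polynomial.eval_mul, Polynomial.eval_C]
      omega
    · rw [Bool.and_eq_true, decide_eq_true_eq, decide_eq_true_eq]
      exact ⟨h1, h2⟩

theorem inNP_section {L : Set (List Bool)} (h : InNP L) (b : Bool) : InNP {x | (b :: x) ∈ L} :=
  inNP_raw (InNPP.comp (inNPP_raw h) (f := fun x : List Bool => b :: x)
    (Poly.cons (Poly.const b) Poly.id))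

/-- `PP = NP ∪ coNP` iff `PP ⊆ NP`. -/
theorem pp_eq_iff : (∀ L : Set (List Bool), InPPc L ↔ InNP L ∨ InCoNP L) ↔
    ∀ L : Set (List Bool), InPPc L → InNP L := by
  constructor
  · intro h L hL
    rcases (h _).1 (join_pp hL (compl_pp hL)) with h1 | h1
    · have h2 := inNP_section h1 true
      have e : {x : List Bool | (true :: x) ∈ join L Lᶜ} = L := by
        ext x
        simp [join]
      rwa [e] at h2
    · have h2 := inNP_section h1 false
      have e : {x : List Bool | (false :: x) ∈ (join L Lᶜ)ᶜ} = L := by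
        ext x
        simp [join]
      rwa [e] at h2
  · intro h L
    constructor
    · intro hL
      exact Or.inl (h L hL)
    · rintro (hL | hL)
      · exact np_sub_pp hL
      · have := compl_pp (np_sub_pp hL)
        rwa [compl_compl] at this

section Gen

variable {β : Type} [TEnc β] [TDec β]

/-- If the satisfying assignments can be counted in polynomial time from the answers to a list of
queries to the function `F`, and the graph of `F` is in `NP`, then `PP` is contained in `NP`. -/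
theorem np_of_graph {qs : CNF ℕ → List β} {post : CNF ℕ × List ℕ → ℕ} (hqs : Poly qs)
    (hpost : Poly post) {F : β → ℕ} (hF : ∀ φ, post (φ, (qs φ).map F) = satCount φ)
    (b : Polynomial ℕ) (hb : ∀ q, (F q).size ≤ b.eval (sz q))
    {G : β × ℕ → Prop} (hG : InNPP G) (hGF : ∀ φ, ∀ q ∈ qs φ, ∀ k, G (q, k) ↔ F q = k)
    {L : Set (List Bool)} (hL : InPPc L) : InNP L := by
  obtain ⟨g, p, hg, hp, hL⟩ := pp_data hL
  have hq : Poly (fun x : List Bool => qs (g x)) := hqs.comp hg
  obtain ⟨c, hc⟩ := hq.sz_le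
  have key : ∀ (x : List Bool) (v : List ℕ), ((∀ z ∈ (qs (g x)).zip v, G z) ∧
      (decide (v.length = (qs (g x)).length) &&
        decide (2 ^ (p x).length < 2 * post (g x, v))) = true) ↔
      v = (qs (g x)).map F ∧ x ∈ L := by
    intro x v
    rw [Bool.and_eq_true, decide_eq_true_eq, decide_eq_true_eq, hL x]
    constructor
    · rintro ⟨h1, h2, h3⟩
      have e : v = (qs (g x)).map F := by
        apply List.ext_getElem
        · rw [h2, List.length_map]
        · intro i hi hi'
          rw [List.length_map] at hi'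
          rw [List.getElem_map]
          have h4 : ((qs (g x))[i], v[i]) ∈ (qs (g x)).zip v := by
            rw [List.mem_iff_getElem]
            exact ⟨i, by simp; omega, by simp⟩
          exact ((hGF (g x) _ (List.getElem_mem hi') _).1 (h1 _ h4)).symm
      refine ⟨e, ?_⟩
      rw [e, hF] at h3
      exact h3
    · rintro ⟨rfl, h3⟩
      refine ⟨?_, by rw [List.length_map], by rw [hF]; exact h3⟩
      intro z hz
      rw [List.mem_iff_getElem] at hz
      obtain ⟨i, hi, he⟩ := hz
      simp only [List.getElem_zip, List.getElem_map] at he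
      rw [← he]
      exact (hGF (g x) _ (List.getElem_mem _) _).2 rfl
  have h1 : InNPP (fun x : List Bool => ∃ v : List ℕ, (∀ z ∈ (qs (g x)).zip v, G z) ∧
      (decide (v.length = (qs (g x)).length) &&
        decide (2 ^ (p x).length < 2 * post (g x, v))) = true) := by
    refine InNPP.exists (Q := fun y : List Bool × List ℕ =>
      (∀ z ∈ (qs (g y.1)).zip y.2, G z) ∧ (decide (y.2.length = (qs (g y.1)).length) &&
        decide (2 ^ (p y.1).length < 2 * post (g y.1, y.2))) = true)
      (InNPP.and ?_ ?_)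
      (c * (Polynomial.C 4 * b.comp c + Polynomial.C 2) + Polynomial.C 1) ?_
    · refine InNPP.forall_mem (Q := fun y : (List Bool × List ℕ) × (β × ℕ) => G y.2)
        (l := fun y : List Bool × List ℕ => (qs (g y.1)).zip y.2)
        (InNPP.comp (f := fun y : (List Bool × List ℕ) × (β × ℕ) => y.2) hG (Poly.snd Poly.id)) ?_
      exact Poly.zip (hq.comp (Poly.fst Poly.id)) (Poly.snd Poly.id)
    · refine inNPP_of_test (d := fun y : List Bool × List ℕ =>
        decide (y.2.length = (qs (g y.1)).length) &&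
          decide (2 ^ (p y.1).length < 2 * post (g y.1, y.2))) ?_ fun y => Iff.rfl
      have h2 : Poly (fun y : List Bool × List ℕ => 2 ^ (p y.1).length) :=
        poly_two_pow (UPoly.length (hp.comp (Poly.fst Poly.id)))
      have h3 : Poly (fun y : List Bool × List ℕ => post (g y.1, y.2)) :=
        hpost.comp (f := fun y : List Bool × List ℕ => (g y.1, y.2))
          (Poly.pair (hg.comp (Poly.fst Poly.id)) (Poly.snd Poly.id))
      exact Poly.and (Poly.decide_eq (Poly.length (Poly.snd Poly.id))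
        (Poly.length (hq.comp (Poly.fst Poly.id))))
        (Poly.decide_lt h2 (Poly.mul (Poly.const 2) h3))
    · intro x v hv
      refine ⟨v, ?_, hv⟩
      rw [(key x v).1 hv |>.1]
      have h5 : ∀ a ∈ (qs (g x)).map F, sz a ≤ 4 * b.eval (c.eval (sz x)) + 1 := by
        intro a ha
        rw [List.mem_map] at ha
        obtain ⟨q, hq', rfl⟩ := ha
        have h6 := sz_nat_le (F q)
        have h7 := hb q
        have h8 : sz q ≤ c.eval (sz x) := (sz_le_of_mem hq').le.trans (hc x)
        have h9 := eval_mono b h8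
        omega
      have h6 := sz_le_length_mul _ _ h5
      rw [List.length_map] at h6
      have h7 : (qs (g x)).length ≤ c.eval (sz x) := (length_lt_sz _).le.trans (hc x)
      simp only [Polynomial.eval_add, Polynomial.eval_mul, Polynomial.eval_C,
        Polynomial.eval_comp]
      have h8 : (qs (g x)).length * (4 * b.eval (c.eval (sz x)) + 1 + 1) ≤
          c.eval (sz x) * (4 * b.eval (c.eval (sz x)) + 2) := Nat.mul_le_mul h7 (by omega)
      omega
  refine inNP_raw (cast (congrArg InNPP ?_) h1)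
  funext x
  apply propext
  constructor
  · rintro ⟨v, hv⟩
    exact ((key x v).1 hv).2
  · intro hx
    exact ⟨_, (key x _).2 ⟨rfl, hx⟩⟩

end Gen

section Main

open Pool.Agent.H549R2.Convex Pool.Agent.H549R2.PM Pool.Agent.NPC.H549PM Pool.Agent.TH925.SI

theorem split_of_mem_qs (φ : CNF ℕ) (l : List (ℕ × ℕ)) (hl : l ∈ qs φ) :
    IsSplit (intervalGraph l) := by
  obtain ⟨A, u, rfl⟩ := mem_qs φ l hl
  exact split_qry A u

theorem split_of_mem_qsM (φ : CNF ℕ) (l : List (ℕ × ℕ)) (hl : l ∈ qsM φ) :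
    IsSplit (intervalGraph l) := by
  rw [qsM, List.mem_map] at hl
  obtain ⟨i, hi, rfl⟩ := hl
  rw [List.mem_range] at hi
  have h1 : i / (NF φ + 1) < (qs φ).length := Nat.div_lt_of_lt_mul (by rwa [mul_comm])
  have h2 : lst φ i ∈ qs φ := by
    rw [lst, List.getD_eq_getElem _ _ h1]
    exact List.getElem_mem h1
  obtain ⟨A, u, hAu⟩ := mem_qs φ _ h2
  rw [hAu]
  exact split_ext_qry A u _

/-- If a language in `NP` decides, for split interval graphs, whether the number of the matchings
is `k`, then `PP ⊆ NP`. -/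
theorem np_of_numM {A : Set (List Bool)} (hA : InNP A)
    (h : ∀ (l : List (ℕ × ℕ)) (k : ℕ), IsSplit (intervalGraph l) → (bits (l, k) ∈ A ↔ numM l = k))
    {L : Set (List Bool)} (hL : InPPc L) : InNP L := by
  refine np_of_graph (β := List (ℕ × ℕ)) qsM_poly postM_poly (F := numM)
    (fun φ => postM_correct φ numM (fun _ _ => rfl))
    (Polynomial.X * Polynomial.X + Polynomial.C 1)
    (size_boundM numM (fun _ => Or.inl rfl))
    (G := fun x : List (ℕ × ℕ) × ℕ => bits x ∈ A) (inNPP_typed hA) (fun φ q hq k => ?_) hL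
  exact h q k (split_of_mem_qsM φ q hq)

/-- If a language in `NP` decides, for split interval graphs, whether the number of the perfect
matchings is `k`, then `PP ⊆ NP`. -/
theorem np_of_pm {A : Set (List Bool)} (hA : InNP A)
    (h : ∀ (l : List (ℕ × ℕ)) (k : ℕ), IsSplit (intervalGraph l) → (bits (l, k) ∈ A ↔ pm l = k))
    {L : Set (List Bool)} (hL : InPPc L) : InNP L := by
  refine np_of_graph (β := List (ℕ × ℕ)) qs_poly post_poly (F := pm)
    (fun φ => post_correct φ pm (fun _ _ => rfl))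
    (Polynomial.X * Polynomial.X + Polynomial.C 1)
    (size_bound pm (fun _ => Or.inl rfl))
    (G := fun x : List (ℕ × ℕ) × ℕ => bits x ∈ A) (inNPP_typed hA) (fun φ q hq k => ?_) hL
  exact h q k (split_of_mem_qs φ q hq)

section Dec

variable {f : List (ℕ × ℕ) → ℕ}

theorem countP_of_strFn (hf : SharpP (strFn f)) : CountP f :=
  ((countP_of_sharpP hf).comp (g := fun l : List (ℕ × ℕ) => bits l) Med.poly_bits).congr fun l =>
    strFn_bits f l

theorem gt_pp (hf : SharpP (strFn f)) : InPPc (lang fun x : List (ℕ × ℕ) × ℕ => x.2 < f x.1) :=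
  inPP_lt (CountP.ofPoly (Poly.snd Poly.id)) ((countP_of_strFn hf).comp (Poly.fst Poly.id))

/-- The graph of the function is in `NP` if the language of the strict lower bounds is in
`NP ∩ coNP`. -/
theorem graph_of_dec (h1 : InNP (lang fun x : List (ℕ × ℕ) × ℕ => x.2 < f x.1))
    (h2 : InCoNP (lang fun x : List (ℕ × ℕ) × ℕ => x.2 < f x.1)) :
    InNP (lang fun x : List (ℕ × ℕ) × ℕ => f x.1 = x.2) := by
  have h3 : InNPP (fun x : List (ℕ × ℕ) × ℕ => x.2 < f x.1) := h1
  have h4 : InNPP (fun x : List (ℕ × ℕ) × ℕ =>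
      bits x ∈ (lang fun x : List (ℕ × ℕ) × ℕ => x.2 < f x.1)ᶜ) := inNPP_typed h2
  have h5 : InNPP (fun x : List (ℕ × ℕ) × ℕ =>
      ∀ c ∈ (bif decide (x.2 = 0) then [] else [x.2 - 1] : List ℕ), c < f x.1) := by
    refine InNPP.forall_mem (Q := fun y : (List (ℕ × ℕ) × ℕ) × ℕ => y.2 < f y.1.1)
      (l := fun x : List (ℕ × ℕ) × ℕ => bif decide (x.2 = 0) then [] else [x.2 - 1]) ?_ ?_
    · exact InNPP.comp (f := fun y : (List (ℕ × ℕ) × ℕ) × ℕ => (y.1.1, y.2)) h3
        (Poly.pair (Poly.fst (Poly.fst Poly.id)) (Poly.snd Poly.id))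
    · exact Poly.cond (Poly.decide_eq (Poly.snd Poly.id) (Poly.const 0)) (Poly.const [])
        (Poly.cons (Poly.sub (Poly.snd Poly.id) (Poly.const 1)) (Poly.const []))
  have h6 := InNPP.and h4 h5
  refine cast (congrArg InNPP ?_) h6
  funext x
  apply propext
  rw [Set.mem_compl_iff, bits_mem_lang, not_lt]
  constructor
  · rintro ⟨h7, h8⟩
    by_cases h0 : x.2 = 0
    · omega
    · rw [decide_eq_false h0, cond_false] at h8
      have := h8 (x.2 - 1) (by simp)
      omega
  · intro h7
    refine ⟨h7.le, ?_⟩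
    by_cases h0 : x.2 = 0
    · rw [decide_eq_true h0, cond_true]
      simp
    · rw [decide_eq_false h0, cond_false]
      intro c hc
      rw [List.mem_singleton] at hc
      omega

/-- the three forms of the collapse -/
theorem three (F : List (ℕ × ℕ) → ℕ) (hf : SharpP (strFn f))
    (hfF : ∀ l k, k < f l ↔ IsSplit (intervalGraph l) ∧ k < F l)
    (hfF' : ∀ l, IsSplit (intervalGraph l) → f l = F l)
    (hard : ∀ {A : Set (List Bool)}, InNP A → (∀ (l : List (ℕ × ℕ)) (k : ℕ),
      IsSplit (intervalGraph l) → (bits (l, k) ∈ A ↔ F l = k)) →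
      ∀ {L : Set (List Bool)}, InPPc L → InNP L) :
    InPPc (lang fun x : List (ℕ × ℕ) × ℕ => IsSplit (intervalGraph x.1) ∧ x.2 < F x.1) ∧
    ((∀ L : Set (List Bool), InPPc L ↔ InNP L ∨ InCoNP L) ↔
      InNP (lang fun x : List (ℕ × ℕ) × ℕ => IsSplit (intervalGraph x.1) ∧ x.2 < F x.1) ∧
      InCoNP (lang fun x : List (ℕ × ℕ) × ℕ => IsSplit (intervalGraph x.1) ∧ x.2 < F x.1)) ∧
    ((∀ L : Set (List Bool), InPPc L ↔ InNP L ∨ InCoNP L) ↔
      ∃ A : Set (List Bool), InNP A ∧ ∀ (l : List (ℕ × ℕ)) (k : ℕ),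
        IsSplit (intervalGraph l) → (bits (l, k) ∈ A ↔ F l = k)) := by
  have e : (fun x : List (ℕ × ℕ) × ℕ => IsSplit (intervalGraph x.1) ∧ x.2 < F x.1) =
      fun x : List (ℕ × ℕ) × ℕ => x.2 < f x.1 := by
    funext x
    exact propext (hfF x.1 x.2).symm
  rw [e, pp_eq_iff]
  have h2 : (InNP (lang fun x : List (ℕ × ℕ) × ℕ => x.2 < f x.1) ∧
      InCoNP (lang fun x : List (ℕ × ℕ) × ℕ => x.2 < f x.1)) →
      ∃ A : Set (List Bool), InNP A ∧ ∀ (l : List (ℕ × ℕ)) (k : ℕ),
        IsSplit (intervalGraph l) → (bits (l, k) ∈ A ↔ F l = k) := by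
    rintro ⟨h3, h4⟩
    refine ⟨_, graph_of_dec h3 h4, fun l k hl => ?_⟩
    rw [bits_mem_lang, hfF' l hl]
  have h1 : (∀ L : Set (List Bool), InPPc L → InNP L) →
      InNP (lang fun x : List (ℕ × ℕ) × ℕ => x.2 < f x.1) ∧
      InCoNP (lang fun x : List (ℕ × ℕ) × ℕ => x.2 < f x.1) :=
    fun h => ⟨h _ (gt_pp hf), h _ (compl_pp (gt_pp hf))⟩
  have h3 : (∃ A : Set (List Bool), InNP A ∧ ∀ (l : List (ℕ × ℕ)) (k : ℕ),
        IsSplit (intervalGraph l) → (bits (l, k) ∈ A ↔ F l = k)) →
      ∀ L : Set (List Bool), InPPc L → InNP L := by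
    rintro ⟨A, hA, h⟩ L hL
    exact hard hA h hL
  exact ⟨gt_pp hf, ⟨h1, fun h => h3 (h2 h)⟩, ⟨fun h => h2 (h1 h), h3⟩⟩

end Dec

theorem pp_numM :
    InPPc (lang fun x : List (ℕ × ℕ) × ℕ => IsSplit (intervalGraph x.1) ∧ x.2 < numM x.1) ∧
    ((∀ L : Set (List Bool), InPPc L ↔ InNP L ∨ InCoNP L) ↔
      InNP (lang fun x : List (ℕ × ℕ) × ℕ => IsSplit (intervalGraph x.1) ∧ x.2 < numM x.1) ∧
      InCoNP (lang fun x : List (ℕ × ℕ) × ℕ => IsSplit (intervalGraph x.1) ∧ x.2 < numM x.1)) ∧
    ((∀ L : Set (List Bool), InPPc L ↔ InNP L ∨ InCoNP L) ↔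
      ∃ A : Set (List Bool), InNP A ∧ ∀ (l : List (ℕ × ℕ)) (k : ℕ),
        IsSplit (intervalGraph l) → (bits (l, k) ∈ A ↔ numM l = k)) := by
  refine three numM sharpP_numMSplit (fun l k => ?_) (fun l hl => ?_) np_of_numM
  · by_cases hl : IsSplit (intervalGraph l)
    · rw [numMSplit, if_pos hl]
      exact ⟨fun h => ⟨hl, h⟩, fun h => h.2⟩
    · rw [numMSplit, if_neg hl]
      exact ⟨fun h => absurd h (by omega), fun h => absurd h.1 hl⟩
  · rw [numMSplit, if_pos hl]

theorem pp_pm :
    InPPc (lang fun x : List (ℕ × ℕ) × ℕ => IsSplit (intervalGraph x.1) ∧ x.2 < pm x.1) ∧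
    ((∀ L : Set (List Bool), InPPc L ↔ InNP L ∨ InCoNP L) ↔
      InNP (lang fun x : List (ℕ × ℕ) × ℕ => IsSplit (intervalGraph x.1) ∧ x.2 < pm x.1) ∧
      InCoNP (lang fun x : List (ℕ × ℕ) × ℕ => IsSplit (intervalGraph x.1) ∧ x.2 < pm x.1)) ∧
    ((∀ L : Set (List Bool), InPPc L ↔ InNP L ∨ InCoNP L) ↔
      ∃ A : Set (List Bool), InNP A ∧ ∀ (l : List (ℕ × ℕ)) (k : ℕ),
        IsSplit (intervalGraph l) → (bits (l, k) ∈ A ↔ pm l = k)) := by
  refine three pm sharpP_pmSplit (fun l k => ?_) (fun l hl => ?_) np_of_pm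
  · by_cases hl : IsSplit (intervalGraph l)
    · rw [pmSplit, if_pos hl]
      exact ⟨fun h => ⟨hl, h⟩, fun h => h.2⟩
    · rw [pmSplit, if_neg hl]
      exact ⟨fun h => absurd h (by omega), fun h => absurd h.1 hl⟩
  · rw [pmSplit, if_pos hl]

end Main

end Pool.Agent.NPC.TH925SI
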