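import Mathlib

/-!
# The matching polynomial (by number of unmatched vertices) of a cone
-/

namespace Pool.Agent.TH925.SI

open Polynomial

/-- The involution of a partial matching. -/
def IsInv {V : Type} (G : SimpleGraph V) (f : V → V) : Prop :=
  (∀ i, f (f i) = i) ∧ ∀ i, f i ≠ i → G.Adj i (f i)

/-- Partial matchings of a graph as involutions moving vertices along edges. -/
abbrev Inv {V : Type} (G : SimpleGraph V) : Type := {f : V → V // IsInv G f}

/-- The cone over a graph: a new vertex `none` adjacent to all others. -/
def cone {V : Type} (G : SimpleGraph V) : SimpleGraph (Option V) where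
  Adj
    | none, none => False
    | none, some _ => True
    | some _, none => True
    | some a, some b => G.Adj a b
  symm := ⟨fun a b h => by
    cases a <;> cases b <;> first | exact h | exact trivial | exact G.adj_symm h⟩
  loopless := ⟨fun a h => by
    cases a
    · exact h
    · exact G.loopless.irrefl _ h⟩

open Classical in
/-- the set of the fixed points -/
noncomputable def fixS {V : Type} [Fintype V] (f : V → V) : Finset V :=
  Finset.univ.filter (fun i => f i = i)

theorem mem_fixS {V : Type} [Fintype V] {f : V → V} {i : V} : i ∈ fixS f ↔ f i = i := by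
  simp [fixS]

/-- number of fixed points -/
noncomputable def fixN {V : Type} [Fintype V] (f : V → V) : ℕ := (fixS f).card

open Classical in
/-- The generating polynomial of the matchings of `G` by the number of unmatched vertices. -/
noncomputable def Pg {V : Type} [Fintype V] (G : SimpleGraph V) : ℚ[X] :=
  ∑ f : Inv G, X ^ fixN f.1

theorem isInv_iso {V W : Type} {G : SimpleGraph V} {H : SimpleGraph W}
    (e : G ≃g H) {f : V → V} (hf : IsInv G f) : IsInv H (fun w => e (f (e.symm w))) := by
  constructor
  · intro i
    simp [hf.1]
  · intro i hi
    have h := hf.2 (e.symm i) (fun h => hi (by simp only [h]; simp))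
    have h2 := e.map_adj_iff.2 h
    simpa using h2

theorem Pg_iso {V W : Type} [Fintype V] [Fintype W] (G : SimpleGraph V) (H : SimpleGraph W)
    (e : G ≃g H) : Pg G = Pg H := by
  classical
  rw [Pg, Pg]
  refine Fintype.sum_bijective
    (fun f : Inv G => (⟨fun w => e (f.1 (e.symm w)), isInv_iso e f.2⟩ : Inv H)) ⟨?_, ?_⟩ _ _ ?_
  · intro f g h
    apply Subtype.ext
    funext v
    have h1 := congrFun (congrArg Subtype.val h) (e v)
    simpa using h1
  · intro f
    refine ⟨⟨fun v => e.symm (f.1 (e v)), isInv_iso e.symm f.2⟩, ?_⟩
    apply Subtype.ext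
    funext v
    simp
  · intro f
    congr 1
    simp only [fixN]
    refine Finset.card_bij (fun v _ => e v) ?_ ?_ ?_
    · intro v hv
      rw [mem_fixS] at hv ⊢
      rw [show e.symm (e v) = v from e.symm_apply_apply v, hv]
    · intro a _ b _ h
      exact e.injective h
    · intro w hw
      rw [mem_fixS] at hw
      refine ⟨e.symm w, ?_, e.apply_symm_apply w⟩
      rw [mem_fixS]
      have := congrArg e.symm hw
      rw [show e.symm (e (f.1 (e.symm w))) = f.1 (e.symm w) from e.symm_apply_apply _] at this
      exact this

theorem fixN_le {V : Type} [Fintype V] (f : V → V) : fixN f ≤ Fintype.card V := by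
  classical
  exact Finset.card_le_univ _

theorem natDegree_Pg {V : Type} [Fintype V] (G : SimpleGraph V) :
    (Pg G).natDegree ≤ Fintype.card V := by
  rw [Pg]
  refine natDegree_sum_le_of_forall_le _ _ fun f _ => ?_
  rw [natDegree_X_pow]
  exact fixN_le _

theorem eval_one_Pg {V : Type} [Fintype V] (G : SimpleGraph V) :
    (Pg G).eval 1 = (Nat.card (Inv G) : ℚ) := by
  classical
  rw [Pg, eval_finsetSum, Nat.card_eq_fintype_card]
  simp

theorem fixN_eq_zero_iff {V : Type} [Fintype V] (G : SimpleGraph V) (f : Inv G) :
    fixN f.1 = 0 ↔ ∀ i, G.Adj i (f.1 i) := by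
  rw [fixN, Finset.card_eq_zero, Finset.eq_empty_iff_forall_notMem]
  constructor
  · intro h i
    exact f.2.2 i (fun hi => h i (mem_fixS.2 hi))
  · intro h i hi
    rw [mem_fixS] at hi
    have := h i
    rw [hi] at this
    exact G.loopless.irrefl _ this

theorem eval_zero_Pg {V : Type} [Fintype V] (G : SimpleGraph V) :
    (Pg G).eval 0 = (Nat.card {f : V → V // (∀ i, f (f i) = i) ∧ ∀ i, G.Adj i (f i)} : ℚ) := by
  classical
  rw [Pg, eval_finsetSum]
  simp only [eval_pow, eval_X]
  have h1 : ∀ f : Inv G, (0 : ℚ) ^ fixN f.1 = if (∀ i, G.Adj i (f.1 i)) then 1 else 0 := by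
    intro f
    rw [zero_pow_eq]
    simp only [fixN_eq_zero_iff]
  rw [Finset.sum_congr rfl (fun f _ => h1 f), Finset.sum_boole, Nat.card_eq_fintype_card,
    ← Fintype.card_subtype]
  congr 1
  refine Fintype.card_congr
    { toFun := fun f => ⟨f.1.1, f.1.2.1, f.2⟩
      invFun := fun f => ⟨⟨f.1, f.2.1, fun i _ => f.2.2 i⟩, f.2.2⟩
      left_inv := fun f => rfl
      right_inv := fun f => rfl }

open Classical in
/-- The involution of a cone obtained from an involution and possibly a fixed point. -/
noncomputable def up {V : Type} (f : V → V) : Option V → Option V → Option V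
  | none, none => none
  | none, some v => some (f v)
  | some i, none => some i
  | some i, some v => if v = i then none else some (f v)

theorem up_nn {V : Type} (f : V → V) : up f none none = none := rfl
theorem up_ns {V : Type} (f : V → V) (v : V) : up f none (some v) = some (f v) := rfl
theorem up_sn {V : Type} (f : V → V) (i : V) : up f (some i) none = some i := rfl
theorem up_ss {V : Type} (f : V → V) (i : V) : up f (some i) (some i) = none := if_pos rfl
theorem up_ss' {V : Type} (f : V → V) {i v : V} (h : v ≠ i) :
    up f (some i) (some v) = some (f v) := if_neg h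

theorem isInv_up_none {V : Type} {G : SimpleGraph V} {f : V → V}
    (hf : IsInv G f) : IsInv (cone G) (up f none) := by
  constructor
  · rintro (_ | v)
    · rfl
    · rw [up_ns, up_ns, hf.1]
  · rintro (_ | v) h
    · exact absurd rfl h
    · exact hf.2 v (fun h' => h (congrArg some h'))

theorem isInv_up_some {V : Type} {G : SimpleGraph V} {f : V → V}
    (hf : IsInv G f) (i : V) (hi : f i = i) : IsInv (cone G) (up f (some i)) := by
  constructor
  · rintro (_ | v)
    · rw [up_sn, up_ss]
    · by_cases h : v = i
      · rw [h, up_ss, up_sn]
      · have h2 : f v ≠ i := by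
          intro h3
          apply h
          rw [← hf.1 v, h3, hi]
        rw [up_ss' f h, up_ss' f h2, hf.1]
  · rintro (_ | v) h
    · exact trivial
    · by_cases hv : v = i
      · rw [hv, up_ss]
        exact trivial
      · rw [up_ss' f hv] at h ⊢
        exact hf.2 v (fun h' => h (congrArg some h'))

theorem fixN_up_none {V : Type} [Fintype V] (f : V → V) :
    fixN (up f none) = fixN f + 1 := by
  have : fixS (up f none) = Finset.cons none ((fixS f).map Function.Embedding.some) (by simp) := by
    ext a
    rcases a with _ | v
    · simp [mem_fixS, up_nn]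
    · simp [mem_fixS, up_ns]
  rw [fixN, fixN, this, Finset.card_cons, Finset.card_map]

theorem fixN_up_some {V : Type} [Fintype V] (f : V → V) (i : V) (hi : f i = i) :
    fixN (up f (some i)) = fixN f - 1 := by
  classical
  have : fixS (up f (some i)) = ((fixS f).erase i).map Function.Embedding.some := by
    ext a
    rcases a with _ | v
    · simp [mem_fixS, up_sn]
    · by_cases h : v = i
      · simp [mem_fixS, h, up_ss]
      · simp [mem_fixS, h, up_ss' f h]
  rw [fixN, fixN, this, Finset.card_map, Finset.card_erase_of_mem (mem_fixS.2 hi)]

/-- The involutions of a cone. -/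
noncomputable def upMap {V : Type} (G : SimpleGraph V) :
    (Inv G ⊕ (Σ f : Inv G, {i : V // f.1 i = i})) → Inv (cone G)
  | .inl f => ⟨up f.1 none, isInv_up_none f.2⟩
  | .inr ⟨f, i⟩ => ⟨up f.1 (some i.1), isInv_up_some f.2 i.1 i.2⟩

theorem upMap_bijective {V : Type} (G : SimpleGraph V) : Function.Bijective (upMap G) := by
  classical
  constructor
  · rintro (f | ⟨f, i⟩) (g | ⟨g, j⟩) h
    · congr 1
      apply Subtype.ext
      funext v
      have h1 := congrFun (congrArg Subtype.val h) (some v)
      exact Option.some.inj h1
    · have h1 := congrFun (congrArg Subtype.val h) none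
      exact absurd h1 (by simp [upMap, up])
    · have h1 := congrFun (congrArg Subtype.val h) none
      exact absurd h1 (by simp [upMap, up])
    · have h1 : i.1 = j.1 := Option.some.inj (congrFun (congrArg Subtype.val h) none)
      have h2 : f = g := by
        apply Subtype.ext
        funext v
        have h3 := congrFun (congrArg Subtype.val h) (some v)
        simp only [upMap, up] at h3
        by_cases hv : v = i.1
        · rw [hv, i.2, h1, j.2]
        · rw [if_neg hv, if_neg (by rw [← h1]; exact hv)] at h3
          exact Option.some.inj h3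
      subst h2
      have h3 : i = j := Subtype.ext h1
      rw [h3]
  · intro g
    have hg := g.2
    set f : V → V := fun v => (g.1 (some v)).getD v with hf
    have hfs : ∀ v w, g.1 (some v) = some w → f v = w := by
      intro v w h
      simp [hf, h]
    have hfn : ∀ v, g.1 (some v) = none → f v = v := by
      intro v h
      simp [hf, h]
    have hfI : IsInv G f := by
      constructor
      · intro v
        cases h : g.1 (some v) with
        | none => rw [hfn v h, hfn v h]
        | some w =>
          rw [hfs v w h]
          apply hfs
          rw [← h, hg.1]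
      · intro v hv
        cases h : g.1 (some v) with
        | none => exact absurd (hfn v h) hv
        | some w =>
          rw [hfs v w h] at hv ⊢
          have := hg.2 (some v) (by rw [h]; exact fun h' => hv (Option.some.inj h'))
          rw [h] at this
          exact this
    cases h : g.1 none with
    | none =>
      refine ⟨.inl ⟨f, hfI⟩, ?_⟩
      apply Subtype.ext
      funext a
      rcases a with _ | v
      · exact h.symm
      · simp only [upMap, up]
        cases h2 : g.1 (some v) with
        | none =>
          have := hg.1 (some v)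
          rw [h2, h] at this
          exact absurd this (by simp)
        | some w => rw [hfs v w h2]
    | some i =>
      have hi : g.1 (some i) = none := by rw [← h, hg.1]
      refine ⟨.inr ⟨⟨f, hfI⟩, ⟨i, hfn i hi⟩⟩, ?_⟩
      apply Subtype.ext
      funext a
      rcases a with _ | v
      · exact h.symm
      · simp only [upMap, up]
        by_cases hv : v = i
        · rw [if_pos hv, hv, hi]
        · rw [if_neg hv]
          cases h2 : g.1 (some v) with
          | none =>
            have := hg.1 (some v)
            rw [h2, h] at this
            exact absurd (Option.some.inj this).symm hv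
          | some w => rw [hfs v w h2]

theorem Pg_eq_sum {V : Type} [Fintype V] (G : SimpleGraph V) (inst : Fintype (Inv G)) :
    Pg G = @Finset.sum (Inv G) ℚ[X] _ (@Finset.univ _ inst) (fun f => X ^ fixN f.1) := by
  rw [Pg]
  rw [Subsingleton.elim inst]

theorem Pg_cone {V : Type} [Fintype V] (G : SimpleGraph V) :
    Pg (cone G) = X * Pg G + derivative (Pg G) := by
  classical
  have h0 : Pg (cone G) = ∑ x : Inv G ⊕ (Σ f : Inv G, {i : V // f.1 i = i}),
      X ^ fixN (upMap G x).1 := by
    rw [Pg_eq_sum (cone G) inferInstance]
    exact (Fintype.sum_bijective (upMap G) (upMap_bijective G)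
      (fun x => (X : ℚ[X]) ^ fixN (upMap G x).1) (fun f => X ^ fixN f.1) (fun _ => rfl)).symm
  rw [h0, Fintype.sum_sum_type, Fintype.sum_sigma]
  congr 1
  · rw [Pg, Finset.mul_sum]
    refine Finset.sum_congr rfl fun f _ => ?_
    simp only [upMap]
    rw [fixN_up_none, pow_succ']
  · rw [Pg, derivative_sum]
    refine Finset.sum_congr rfl fun f _ => ?_
    have h1 : ∀ i : {i : V // f.1 i = i}, (X : ℚ[X]) ^ fixN (upMap G (Sum.inr ⟨f, i⟩)).1 =
        X ^ (fixN f.1 - 1) := fun i => by
      simp only [upMap]
      rw [fixN_up_some f.1 i.1 i.2]
    rw [Finset.sum_congr rfl (fun i _ => h1 i), Finset.sum_const, Finset.card_univ,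
      derivative_X_pow, nsmul_eq_mul]
    have : Fintype.card {i : V // f.1 i = i} = fixN f.1 := by
      rw [fixN]
      exact Fintype.card_of_subtype _ (fun i => mem_fixS)
    rw [this]
    simp

end Pool.Agent.TH925.SI
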