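import Mathlib

/-!
# Recovering the value at `0` of a polynomial from the values at `1` of its iterated images under
`P ↦ X P + P'`
-/

namespace Pool.Agent.TH925.SI

open Polynomial

/-- The operator `P ↦ X P + P'`. -/
noncomputable def LL (P : ℚ[X]) : ℚ[X] := X * P + derivative P

/-- the series of `exp (-X)` -/
noncomputable def F1 : PowerSeries ℚ := PowerSeries.mk fun j => (-1) ^ j / (j.factorial : ℚ)

/-- the coefficients of `exp (-X²/2)` -/
def f2 (s : ℕ) : ℚ := if s % 2 = 0 then (-1) ^ (s / 2) / ((s / 2).factorial * 2 ^ (s / 2)) else 0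

/-- the series of `exp (-X²/2)` -/
noncomputable def F2 : PowerSeries ℚ := PowerSeries.mk f2

theorem d_F1 : PowerSeries.derivative ℚ F1 = - F1 := by
  ext m
  rw [PowerSeries.coeff_derivative, F1, map_neg, PowerSeries.coeff_mk, PowerSeries.coeff_mk,
    Nat.factorial_succ, pow_succ]
  push_cast
  have h1 : (m.factorial : ℚ) ≠ 0 := Nat.cast_ne_zero.2 (Nat.factorial_ne_zero m)
  have h2 : (m : ℚ) + 1 ≠ 0 := by positivity
  field_simp

theorem d_F2 : PowerSeries.derivative ℚ F2 = - (PowerSeries.X * F2) := by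
  ext m
  rw [PowerSeries.coeff_derivative, F2, map_neg, PowerSeries.coeff_mk]
  rcases m with _ | m
  · rw [PowerSeries.coeff_zero_X_mul]
    simp [f2]
  · rw [PowerSeries.coeff_succ_X_mul, PowerSeries.coeff_mk]
    simp only [f2]
    rcases Nat.even_or_odd' m with ⟨k, rfl | rfl⟩
    · rw [if_pos (by omega), if_pos (by omega), show (2 * k + 1 + 1) / 2 = k + 1 by omega,
        show 2 * k / 2 = k by omega, Nat.factorial_succ, pow_succ, pow_succ]
      push_cast
      have h1 : (k.factorial : ℚ) ≠ 0 := Nat.cast_ne_zero.2 (Nat.factorial_ne_zero k)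
      have h2 : (k : ℚ) + 1 ≠ 0 := by positivity
      field_simp
      ring
    · rw [if_neg (by omega), if_neg (by omega)]
      simp

/-- the series of `exp (-X-X²/2)` -/
noncomputable def FF : PowerSeries ℚ := F1 * F2

theorem d_FF : PowerSeries.derivative ℚ FF = - ((1 + PowerSeries.X) * FF) := by
  rw [FF, Derivation.leibniz, d_F1, d_F2]
  simp only [smul_eq_mul]
  ring

theorem const_FF : PowerSeries.constantCoeff FF = 1 := by
  rw [FF, map_mul, ← PowerSeries.coeff_zero_eq_constantCoeff_apply,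
    ← PowerSeries.coeff_zero_eq_constantCoeff_apply, F1, F2, PowerSeries.coeff_mk,
    PowerSeries.coeff_mk]
  simp [f2]

theorem FF_inv : FF * FF⁻¹ = 1 :=
  PowerSeries.mul_inv_cancel _ (by rw [const_FF]; exact one_ne_zero)

theorem d_FFinv : PowerSeries.derivative ℚ FF⁻¹ = (1 + PowerSeries.X) * FF⁻¹ := by
  have h := congrArg (PowerSeries.derivative ℚ) FF_inv
  rw [Derivation.leibniz, d_FF] at h
  simp only [smul_eq_mul] at h
  have h1 : PowerSeries.derivative ℚ (1 : PowerSeries ℚ) = 0 := Derivation.map_one_eq_zero _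
  rw [h1] at h
  have h2 : FF * FF⁻¹ = 1 := FF_inv
  calc PowerSeries.derivative ℚ FF⁻¹
      = (FF * FF⁻¹) * PowerSeries.derivative ℚ FF⁻¹ := by rw [h2, one_mul]
    _ = FF⁻¹ * (FF * PowerSeries.derivative ℚ FF⁻¹ + FF⁻¹ * -((1 + PowerSeries.X) * FF)) +
        (FF * FF⁻¹) * ((1 + PowerSeries.X) * FF⁻¹) := by ring
    _ = (1 + PowerSeries.X) * FF⁻¹ := by rw [h, h2]; ring

/-- the shifted polynomial as a power series -/
noncomputable def QQ (P : ℚ[X]) : PowerSeries ℚ := ((P.comp (X + 1) : ℚ[X]) : PowerSeries ℚ)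

theorem d_QQ (P : ℚ[X]) : PowerSeries.derivative ℚ (QQ P) = QQ (derivative P) := by
  rw [QQ, QQ, PowerSeries.derivative_coe, derivative_comp]
  simp

theorem QQ_add (P Q : ℚ[X]) : QQ (P + Q) = QQ P + QQ Q := by
  rw [QQ, QQ, QQ, add_comp, Polynomial.coe_add]

theorem QQ_X_mul (P : ℚ[X]) : QQ (X * P) = (1 + PowerSeries.X) * QQ P := by
  rw [QQ, QQ, mul_comp, X_comp, Polynomial.coe_mul, Polynomial.coe_add, Polynomial.coe_X,
    Polynomial.coe_one, add_comm]

theorem d_RR (P : ℚ[X]) : PowerSeries.derivative ℚ (FF⁻¹ * QQ P) = FF⁻¹ * QQ (LL P) := by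
  rw [Derivation.leibniz, d_FFinv, d_QQ, LL, QQ_add, QQ_X_mul]
  simp only [smul_eq_mul]
  ring

theorem coeff_RR (m : ℕ) : ∀ P : ℚ[X],
    (m.factorial : ℚ) * PowerSeries.coeff m (FF⁻¹ * QQ P) = (LL^[m] P).eval 1 := by
  induction m with
  | zero =>
    intro P
    rw [PowerSeries.coeff_zero_eq_constantCoeff_apply, map_mul, Nat.factorial_zero, Nat.cast_one,
      one_mul, Function.iterate_zero, id]
    have h1 : PowerSeries.constantCoeff FF⁻¹ = 1 := by
      rw [PowerSeries.constantCoeff_inv, const_FF, inv_one]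
    rw [h1, one_mul, QQ, Polynomial.constantCoeff_coe, Polynomial.coeff_zero_eq_eval_zero,
      eval_comp]
    simp
  | succ m ih =>
    intro P
    rw [Function.iterate_succ_apply, ← ih (LL P), ← d_RR, PowerSeries.coeff_derivative,
      Nat.factorial_succ]
    push_cast
    ring

theorem QQ_eq (P : ℚ[X]) : QQ P = F1 * (F2 * PowerSeries.mk
    (fun i => (LL^[i] P).eval 1 / (i.factorial : ℚ))) := by
  have h : FF⁻¹ * QQ P = PowerSeries.mk (fun i => (LL^[i] P).eval 1 / (i.factorial : ℚ)) := by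
    ext m
    rw [PowerSeries.coeff_mk, ← coeff_RR]
    have h1 : (m.factorial : ℚ) ≠ 0 := Nat.cast_ne_zero.2 (Nat.factorial_ne_zero m)
    field_simp
  rw [← h]
  calc QQ P = (FF * FF⁻¹) * QQ P := by rw [FF_inv, one_mul]
    _ = F1 * (F2 * (FF⁻¹ * QQ P)) := by rw [FF]; ring

theorem sum_tri (n : ℕ) (Φ : ℕ → ℕ → ℕ → ℚ) :
    ∑ m ∈ Finset.range (n + 1), ∑ p ∈ Finset.HasAntidiagonal.antidiagonal m, ∑ q ∈ Finset.HasAntidiagonal.antidiagonal p.2,
      Φ q.2 p.1 q.1 =
    ∑ i ∈ Finset.range (n + 1), ∑ j ∈ Finset.range (n + 1), ∑ s ∈ Finset.range (n + 1),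
      if i + j + s ≤ n then Φ i j s else 0 := by
  rw [Finset.sum_sigma', Finset.sum_sigma', Finset.sum_sigma', Finset.sum_sigma',
    ← Finset.sum_filter]
  refine Finset.sum_nbij' (fun x => ⟨⟨x.2.2, x.1.2.1⟩, x.2.1⟩)
    (fun y => ⟨⟨y.1.1 + y.1.2 + y.2, (y.1.2, y.1.1 + y.2)⟩, (y.2, y.1.1)⟩) ?_ ?_ ?_ ?_ ?_
  · rintro ⟨⟨m, j, r⟩, s, i⟩ h
    simp only [Finset.mem_sigma, Finset.mem_range, Finset.HasAntidiagonal.mem_antidiagonal,
      Finset.mem_filter] at h ⊢
    omega
  · rintro ⟨⟨i, j⟩, s⟩ h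
    simp only [Finset.mem_sigma, Finset.mem_range, Finset.HasAntidiagonal.mem_antidiagonal,
      Finset.mem_filter] at h ⊢
    omega
  · rintro ⟨⟨m, j, r⟩, s, i⟩ h
    simp only [Finset.mem_sigma, Finset.mem_range, Finset.HasAntidiagonal.mem_antidiagonal] at h
    obtain ⟨⟨h1, h2⟩, h3⟩ := h
    subst h3
    subst h2
    simp only [Sigma.mk.injEq, heq_eq_eq, Prod.mk.injEq, and_true, true_and]
    omega
  · rintro ⟨⟨i, j⟩, s⟩ h
    rfl
  · rintro ⟨⟨m, j, r⟩, s, i⟩ h
    rfl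

/-- **The inversion formula.** -/
theorem eval_zero_eq (P : ℚ[X]) (n : ℕ) (hn : P.natDegree ≤ n) :
    P.eval 0 = ∑ i ∈ Finset.range (n + 1), ∑ j ∈ Finset.range (n + 1),
      ∑ s ∈ Finset.range (n + 1), if i + j + s ≤ n then
        (if s % 2 = 0 then (-1) ^ (i + s / 2) * ((LL^[i] P).eval 1 /
          ((i.factorial : ℚ) * j.factorial * ((s / 2).factorial * 2 ^ (s / 2)))) else 0)
        else 0 := by
  have h0 : P.eval 0 = (P.comp (X + 1)).eval (-1) := by
    rw [eval_comp]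
    simp
  have hd : (P.comp (X + 1)).natDegree < n + 1 := by
    have h1 : (P.comp (X + 1)).natDegree ≤ P.natDegree * (X + 1 : ℚ[X]).natDegree :=
      natDegree_comp_le
    have h2 : (X + 1 : ℚ[X]).natDegree ≤ 1 := by
      have := natDegree_X_add_C (1 : ℚ)
      rw [map_one] at this
      exact this.le
    have h3 := Nat.mul_le_mul_left P.natDegree h2
    omega
  rw [h0, eval_eq_sum_range' hd]
  have h2 : ∀ m, (P.comp (X + 1)).coeff m = PowerSeries.coeff m (QQ P) := by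
    intro m
    rw [QQ, Polynomial.coeff_coe]
  have h3 : ∀ m ∈ Finset.range (n + 1), (P.comp (X + 1)).coeff m * (-1 : ℚ) ^ m =
      ∑ p ∈ Finset.HasAntidiagonal.antidiagonal m, ∑ q ∈ Finset.HasAntidiagonal.antidiagonal p.2,
        (fun i j s => if s % 2 = 0 then (-1 : ℚ) ^ (i + s / 2) * ((LL^[i] P).eval 1 /
          ((i.factorial : ℚ) * j.factorial * ((s / 2).factorial * 2 ^ (s / 2)))) else 0)
        q.2 p.1 q.1 := by
    intro m _
    rw [h2, QQ_eq, PowerSeries.coeff_mul, Finset.sum_mul]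
    refine Finset.sum_congr rfl fun p hp => ?_
    rw [PowerSeries.coeff_mul, Finset.mul_sum, Finset.sum_mul]
    refine Finset.sum_congr rfl fun q hq => ?_
    rw [Finset.HasAntidiagonal.mem_antidiagonal] at hp hq
    rw [F1, F2, PowerSeries.coeff_mk, PowerSeries.coeff_mk, PowerSeries.coeff_mk, f2]
    beta_reduce
    by_cases hs : q.1 % 2 = 0
    · rw [if_pos hs, if_pos hs]
      have e : (-1 : ℚ) ^ m = (-1) ^ p.1 * (-1) ^ q.2 := by
        rw [← hp, ← hq, pow_add, pow_add]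
        rw [Even.neg_one_pow (Nat.even_iff.2 hs), one_mul]
      have e2 : (-1 : ℚ) ^ p.1 * (-1) ^ p.1 = 1 := by
        rw [← mul_pow]
        norm_num
      rw [e, pow_add]
      calc (-1 : ℚ) ^ p.1 / (p.1.factorial : ℚ) * ((-1) ^ (q.1 / 2) / ((q.1 / 2).factorial *
            2 ^ (q.1 / 2)) * ((LL^[q.2] P).eval 1 / (q.2.factorial : ℚ))) *
            ((-1) ^ p.1 * (-1) ^ q.2)
          = ((-1 : ℚ) ^ p.1 * (-1) ^ p.1) * ((-1) ^ q.2 * (-1) ^ (q.1 / 2)) *
            ((1 / (p.1.factorial : ℚ)) * (1 / ((q.1 / 2).factorial *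
            2 ^ (q.1 / 2))) * ((LL^[q.2] P).eval 1 / (q.2.factorial : ℚ))) := by ring
        _ = _ := by
          rw [e2]
          have h1 : (p.1.factorial : ℚ) ≠ 0 := Nat.cast_ne_zero.2 (Nat.factorial_ne_zero _)
          have h4 : (q.2.factorial : ℚ) ≠ 0 := Nat.cast_ne_zero.2 (Nat.factorial_ne_zero _)
          have h5 : ((q.1 / 2).factorial : ℚ) ≠ 0 := Nat.cast_ne_zero.2 (Nat.factorial_ne_zero _)
          field_simp
    · rw [if_neg hs, if_neg hs]
      ring
  rw [Finset.sum_congr rfl h3]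
  exact sum_tri n (fun i j s => if s % 2 = 0 then (-1 : ℚ) ^ (i + s / 2) * ((LL^[i] P).eval 1 /
          ((i.factorial : ℚ) * j.factorial * ((s / 2).factorial * 2 ^ (s / 2)))) else 0)

end Pool.Agent.TH925.SI
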