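import Pool.Agent.TH925.SI.Cone
import Pool.Agent.TH925.SI.Series
import Pool.Agent.H549R2.PM8

/-!
# Perfect matchings of interval graphs from the numbers of all matchings
-/

namespace Pool.Agent.TH925.SI

open Polynomial Pool.Agent.H549R2.PM

/-- The number of matchings (sets of pairwise disjoint edges) of the interval graph of a list of
intervals.  A matching is a subgraph in which every vertex has exactly one neighbour. -/
noncomputable def numM (l : List (ℕ × ℕ)) : ℕ :=
  Nat.card {M : (intervalGraph l).Subgraph // M.IsMatching}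

/-- matchings as involutions -/
theorem card_numM {V : Type} (G : SimpleGraph V) :
    Nat.card {M : G.Subgraph // M.IsMatching} = Nat.card (Inv G) := by
  classical
  symm
  refine Nat.card_congr (Equiv.ofBijective
    (fun f => (⟨{ verts := {v | f.1 v ≠ v}
                  Adj := fun v w => f.1 v = w ∧ v ≠ w
                  adj_sub := fun {v w} h => by
                    obtain ⟨h1, h2⟩ := h
                    rw [← h1]
                    exact f.2.2 v (by rw [h1]; exact h2.symm)
                  edge_vert := fun {v w} h => by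
                    obtain ⟨h1, h2⟩ := h
                    show f.1 v ≠ v
                    rw [h1]
                    exact h2.symm
                  symm := ⟨fun v w h => ⟨by rw [← h.1, f.2.1], h.2.symm⟩⟩ }, ?_⟩ :
      {M : G.Subgraph // M.IsMatching})) ⟨?_, ?_⟩)
  · intro v hv
    exact ⟨f.1 v, ⟨rfl, Ne.symm hv⟩, fun w hw => hw.1.symm⟩
  · intro f g h
    apply Subtype.ext
    funext v
    have h0 := congrArg (fun M : {M : G.Subgraph // M.IsMatching} => v ∈ M.1.verts) h
    have h2 : (f.1 v ≠ v) = (g.1 v ≠ v) := h0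
    by_cases hv : f.1 v = v
    · have : ¬ g.1 v ≠ v := by rw [← h2]; exact fun h' => h' hv
      rw [hv]
      push Not at this
      exact this.symm
    · have h1 := congrArg (fun M : {M : G.Subgraph // M.IsMatching} => M.1.Adj v (f.1 v)) h
      have h3 : (f.1 v = f.1 v ∧ v ≠ f.1 v) = (g.1 v = f.1 v ∧ v ≠ f.1 v) := h1
      have h4 : g.1 v = f.1 v ∧ v ≠ f.1 v := by
        rw [← h3]
        exact ⟨rfl, Ne.symm hv⟩
      exact h4.1.symm
  · rintro ⟨M, hM⟩
    set f : V → V := fun v => if h : v ∈ M.verts then (hM h).choose else v with hf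
    have hf1 : ∀ v, v ∈ M.verts → M.Adj v (f v) := by
      intro v hv
      simp only [hf, dif_pos hv]
      exact (hM hv).choose_spec.1
    have hf2 : ∀ v w, M.Adj v w → f v = w := by
      intro v w h
      have hv : v ∈ M.verts := M.edge_vert h
      simp only [hf, dif_pos hv]
      exact ((hM hv).choose_spec.2 w h).symm
    have hf3 : ∀ v, v ∉ M.verts → f v = v := fun v hv => by simp only [hf, dif_neg hv]
    have hmem : ∀ v, f v ≠ v ↔ v ∈ M.verts := by
      intro v
      constructor
      · intro h
        by_contra hv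
        exact h (hf3 v hv)
      · intro hv h
        have := hf1 v hv
        rw [h] at this
        exact G.loopless.irrefl _ this.adj_sub
    refine ⟨⟨f, fun i => ?_, fun i hi => ?_⟩, ?_⟩
    · by_cases hi : i ∈ M.verts
      · exact hf2 _ _ (M.symm.symm _ _ (hf1 i hi))
      · rw [hf3 i hi, hf3 i hi]
    · exact (hf1 i ((hmem i).1 hi)).adj_sub
    · apply Subtype.ext
      simp only
      ext v w
      · exact hmem v
      · constructor
        · rintro ⟨h1, h2⟩
          rw [← h1]
          apply hf1
          rw [← hmem, h1]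
          exact h2.symm
        · intro h
          refine ⟨hf2 v w h, ?_⟩
          rintro rfl
          exact G.loopless.irrefl _ h.adj_sub

theorem numM_eq (l : List (ℕ × ℕ)) : (numM l : ℚ) = (Pg (intervalGraph l)).eval 1 := by
  rw [numM, card_numM, eval_one_Pg]

theorem pm_eq (l : List (ℕ × ℕ)) : (pm l : ℚ) = (Pg (intervalGraph l)).eval 0 := by
  rw [pm, card_pm, eval_zero_Pg]

/-- A list of nonempty intervals with left endpoints at most `B`. -/
def Ok (B : ℕ) (l : List (ℕ × ℕ)) : Prop := ∀ r ∈ l, r.1 ≤ r.2 ∧ r.1 ≤ B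

/-- The interval graph of a list with an additional interval meeting all the others. -/
theorem cone_iso (B : ℕ) (l : List (ℕ × ℕ)) (h : Ok B l) :
    Nonempty (intervalGraph ((0, B) :: l) ≃g cone (intervalGraph l)) := by
  refine ⟨⟨finSuccEquiv l.length, ?_⟩⟩
  intro a b
  refine Fin.cases ?_ (fun i => ?_) a <;> refine Fin.cases ?_ (fun j => ?_) b
  · rw [finSuccEquiv_zero]
    constructor
    · intro h
      exact h.elim
    · intro h
      exact absurd rfl h.1
  · rw [finSuccEquiv_zero, finSuccEquiv_succ]
    constructor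
    · intro _
      have h1 := h _ (List.getElem_mem j.2)
      refine ⟨(Fin.succ_ne_zero j).symm, (l[j.val]).1, ⟨Nat.zero_le _, h1.2⟩, ⟨le_rfl, h1.1⟩⟩
    · intro _
      exact trivial
  · rw [finSuccEquiv_zero, finSuccEquiv_succ]
    constructor
    · intro _
      have h1 := h _ (List.getElem_mem i.2)
      refine ⟨Fin.succ_ne_zero i, (l[i.val]).1, ⟨le_rfl, h1.1⟩, ⟨Nat.zero_le _, h1.2⟩⟩
    · intro _
      exact trivial
  · rw [finSuccEquiv_succ, finSuccEquiv_succ]
    constructor
    · rintro ⟨h1, h2⟩
      exact ⟨fun h' => h1 (Fin.succ_injective _ h'), h2⟩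
    · rintro ⟨h1, h2⟩
      exact ⟨fun h' => h1 (congrArg Fin.succ h'), h2⟩

/-- The list with `m` additional intervals `[0, B]`. -/
def ext (B m : ℕ) (l : List (ℕ × ℕ)) : List (ℕ × ℕ) := List.replicate m (0, B) ++ l

theorem ext_succ (B m : ℕ) (l : List (ℕ × ℕ)) : ext B (m + 1) l = (0, B) :: ext B m l := rfl

theorem ok_ext (B m : ℕ) (l : List (ℕ × ℕ)) (h : Ok B l) : Ok B (ext B m l) := by
  intro r hr
  rw [ext, List.mem_append, List.mem_replicate] at hr
  rcases hr with ⟨_, rfl⟩ | hr
  · exact ⟨Nat.zero_le _, Nat.zero_le _⟩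
  · exact h r hr

theorem Pg_ext (B : ℕ) (l : List (ℕ × ℕ)) (h : Ok B l) (m : ℕ) :
    Pg (intervalGraph (ext B m l)) = LL^[m] (Pg (intervalGraph l)) := by
  induction m with
  | zero => rfl
  | succ m ih =>
    rw [Function.iterate_succ_apply', ← ih, LL, ← Pg_cone]
    exact Pg_iso _ _ (cone_iso B (ext B m l) (ok_ext B m l h)).some

/-- one term of the inversion formula, multiplied with the common denominator -/
def trm (n i j s a : ℕ) : ℕ :=
  a * ((n.factorial / (min i n).factorial * (n.factorial / (min j n).factorial)) *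
    (n.factorial / (min (s / 2) n).factorial * 2 ^ (n - s / 2)))

/-- the terms of the inversion formula with given sign -/
def inv3 (n : ℕ) (g : ℕ → ℕ) (b : ℕ) : ℕ :=
  ((List.range (n + 1)).map fun i => ((List.range (n + 1)).map fun j =>
    ((List.range (n + 1)).map fun s =>
      bif decide (i + j + s ≤ n) && (decide (s % 2 = 0) && decide ((i + s / 2) % 2 = b)) then
        trm n i j s (g i) else 0).sum).sum).sum

/-- the common denominator -/
def den (n : ℕ) : ℕ := n.factorial * n.factorial * n.factorial * 2 ^ n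

/-- the inversion formula -/
def inv (n : ℕ) (g : ℕ → ℕ) : ℕ := (inv3 n g 0 - inv3 n g 1) / den n

theorem sum_map_range (n : ℕ) (f : ℕ → ℕ) :
    ((List.range n).map f).sum = ∑ i ∈ Finset.range n, f i := by
  induction n with
  | zero => simp
  | succ n ih =>
    rw [List.range_succ, List.map_append, List.sum_append, ih, Finset.sum_range_succ]
    simp

theorem trm_eq (n i j s a : ℕ) (h : i + j + s ≤ n) :
    (trm n i j s a : ℚ) = den n * (a /
      ((i.factorial : ℚ) * j.factorial * ((s / 2).factorial * 2 ^ (s / 2)))) := by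
  have hi : i ≤ n := by omega
  have hj : j ≤ n := by omega
  have hs : s / 2 ≤ n := by omega
  have hd : ∀ k, k ≤ n → ((n.factorial / k.factorial : ℕ) : ℚ) = n.factorial / k.factorial :=
    fun k hk => Nat.cast_div (Nat.factorial_dvd_factorial hk)
      (Nat.cast_ne_zero.2 (Nat.factorial_ne_zero k))
  have hp : (2 : ℚ) ^ n = 2 ^ (n - s / 2) * 2 ^ (s / 2) := by
    rw [← pow_add]
    congr 1
    omega
  rw [trm, min_eq_left hi, min_eq_left hj, min_eq_left hs, den]
  push_cast
  rw [hd i hi, hd j hj, hd _ hs, hp]
  have h1 : (i.factorial : ℚ) ≠ 0 := Nat.cast_ne_zero.2 (Nat.factorial_ne_zero _)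
  have h2 : (j.factorial : ℚ) ≠ 0 := Nat.cast_ne_zero.2 (Nat.factorial_ne_zero _)
  have h3 : ((s / 2).factorial : ℚ) ≠ 0 := Nat.cast_ne_zero.2 (Nat.factorial_ne_zero _)
  field_simp

theorem inv_eq (n : ℕ) (g : ℕ → ℕ) (k : ℕ)
    (h : (k : ℚ) = ∑ i ∈ Finset.range (n + 1), ∑ j ∈ Finset.range (n + 1),
      ∑ s ∈ Finset.range (n + 1), if i + j + s ≤ n then
        (if s % 2 = 0 then (-1) ^ (i + s / 2) * ((g i : ℚ) /
          ((i.factorial : ℚ) * j.factorial * ((s / 2).factorial * 2 ^ (s / 2)))) else 0)
        else 0) : inv n g = k := by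
  have hden : den n ≠ 0 := by
    rw [den]
    positivity
  have h1 : ((inv3 n g 0 : ℕ) : ℚ) - (inv3 n g 1 : ℕ) = (den n : ℚ) * k := by
    rw [inv3, inv3, h, Finset.mul_sum]
    simp only [sum_map_range]
    push_cast
    rw [← Finset.sum_sub_distrib]
    refine Finset.sum_congr rfl fun i _ => ?_
    rw [← Finset.sum_sub_distrib, Finset.mul_sum]
    refine Finset.sum_congr rfl fun j _ => ?_
    rw [← Finset.sum_sub_distrib, Finset.mul_sum]
    refine Finset.sum_congr rfl fun s _ => ?_
    by_cases h1 : i + j + s ≤ n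
    · by_cases h2 : s % 2 = 0
      · rw [if_pos h1, if_pos h2]
        rcases Nat.even_or_odd (i + s / 2) with h3 | h3
        · have h4 : (i + s / 2) % 2 = 0 := Nat.even_iff.1 h3
          have h5 : ¬ (i + s / 2) % 2 = 1 := by omega
          rw [h3.neg_one_pow]
          simp only [h1, h2, h4, h5, decide_true, decide_false, Bool.and_self, Bool.and_false,
            cond_true, cond_false, Nat.cast_zero, sub_zero, one_mul, Bool.and_true]
          rw [trm_eq n i j s (g i) h1]
          simp
        · have h4 : (i + s / 2) % 2 = 1 := Nat.odd_iff.1 h3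
          have h5 : ¬ (i + s / 2) % 2 = 0 := by omega
          rw [h3.neg_one_pow]
          simp only [h1, h2, h4, h5, decide_true, decide_false, Bool.and_self, Bool.and_false,
            cond_true, cond_false, Nat.cast_zero, zero_sub, Bool.and_true]
          rw [trm_eq n i j s (g i) h1]
          simp
      · rw [if_pos h1, if_neg h2]
        simp [h2]
    · rw [if_neg h1]
      simp [h1]
  have h2 : inv3 n g 0 - inv3 n g 1 = den n * k := by
    have h3 : ((inv3 n g 0 : ℕ) : ℚ) = ((den n * k + inv3 n g 1 : ℕ) : ℚ) := by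
      push_cast
      linarith
    have h4 := Nat.cast_injective h3
    omega
  rw [inv, h2, Nat.mul_div_cancel_left _ (Nat.pos_of_ne_zero hden)]

theorem inv_congr (n : ℕ) (g g' : ℕ → ℕ) (h : ∀ i ≤ n, g i = g' i) : inv n g = inv n g' := by
  have : ∀ b, inv3 n g b = inv3 n g' b := by
    intro b
    rw [inv3, inv3]
    congr 1
    refine List.map_congr_left fun i hi => ?_
    rw [List.mem_range] at hi
    rw [h i (by omega)]
  rw [inv, inv, this, this]

/-- **The number of perfect matchings from the numbers of all matchings of the graphs with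
additional universal vertices.** -/
theorem pm_eq_inv (B : ℕ) (l : List (ℕ × ℕ)) (h : Ok B l) (n : ℕ) (hn : l.length ≤ n) :
    inv n (fun m => numM (ext B m l)) = pm l := by
  apply inv_eq
  have hd : (Pg (intervalGraph l)).natDegree ≤ n :=
    (natDegree_Pg _).trans (by rw [Fintype.card_fin]; exact hn)
  rw [pm_eq, eval_zero_eq _ n hd]
  simp only [numM_eq, Pg_ext B l h]

end Pool.Agent.TH925.SI
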