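import Pool.Agent.TH925.SI.Red

/-!
# Split interval graphs are recognised in polynomial time
-/

namespace Pool.Agent.NPC.TH925SI

open Pool.Agent.H549R2.Convex Pool.Agent.H549R2.PM Pool.Agent.NPC.Cnt
open Pool.Agent.NPC.H549Convex (LL upoly_fact upoly_choose fp_of_poly)
open Pool.Agent.NPC.H549PM Pool.Agent.TH925.SI

/-- test whether the point `t` is in the interval `r` -/
def inB (t : ℕ) (r : ℕ × ℕ) : Bool := decide (r.1 ≤ t) && decide (t ≤ r.2)

theorem inB_iff (t : ℕ) (r : ℕ × ℕ) : inB t r = true ↔ r.1 ≤ t ∧ t ≤ r.2 := by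
  rw [inB, Bool.and_eq_true, decide_eq_true_eq, decide_eq_true_eq]

/-- for the point `t` and the positions `i`, `j`: one of the intervals contains `t`, or they are
not two disjoint intervals -/
def spl3 (x : ((List (ℕ × ℕ) × ℕ) × ℕ) × ℕ) : Bool :=
  decide (x.1.2 = x.2) || (inB x.1.1.2 (x.1.1.1.getD x.1.2 (0, 0)) ||
    (inB x.1.1.2 (x.1.1.1.getD x.2 (0, 0)) ||
      !meetB (x.1.1.1.getD x.1.2 (0, 0)) (x.1.1.1.getD x.2 (0, 0))))

/-- the intervals without the point `t` are pairwise disjoint -/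
def spl1 (x : List (ℕ × ℕ) × ℕ) : Bool :=
  (List.range x.1.length).all fun i => (List.range x.1.length).all fun j => spl3 ((x, i), j)

/-- test for split interval graphs -/
def splB (l : List (ℕ × ℕ)) : Bool := (0 :: l.map Prod.fst).any fun t => spl1 (l, t)

theorem spl1_iff (l : List (ℕ × ℕ)) (t : ℕ) : spl1 (l, t) = true ↔
    ∀ i j : Fin l.length, ¬ (l[i].1 ≤ t ∧ t ≤ l[i].2) → ¬ (l[j].1 ≤ t ∧ t ≤ l[j].2) →
      ¬ (intervalGraph l).Adj i j := by
  rw [spl1, List.all_eq_true]
  constructor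
  · intro h i j hi hj hadj
    have h1 := h i.val (List.mem_range.2 i.2)
    rw [List.all_eq_true] at h1
    have h2 := h1 j.val (List.mem_range.2 j.2)
    simp only [spl3, Bool.or_eq_true, decide_eq_true_eq, Bool.not_eq_true', inB_iff] at h2
    rw [List.getD_eq_getElem l _ i.2, List.getD_eq_getElem l _ j.2] at h2
    rcases h2 with h2 | h2 | h2 | h2
    · exact hadj.1 (Fin.ext h2)
    · exact hi h2
    · exact hj h2
    · have h3 := (meetB_iff l[i.val] l[j.val]).2 hadj.2
      rw [h3] at h2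
      exact absurd h2 (by simp)
  · intro h i hi
    rw [List.all_eq_true]
    intro j hj
    rw [List.mem_range] at hi hj
    simp only [spl3, Bool.or_eq_true, decide_eq_true_eq, Bool.not_eq_true', inB_iff]
    rw [List.getD_eq_getElem l _ hi, List.getD_eq_getElem l _ hj]
    by_cases h1 : i = j
    · exact Or.inl h1
    by_cases h2 : l[i].1 ≤ t ∧ t ≤ l[i].2
    · exact Or.inr (Or.inl h2)
    by_cases h3 : l[j].1 ≤ t ∧ t ≤ l[j].2
    · exact Or.inr (Or.inr (Or.inl h3))
    right; right; right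
    rw [← Bool.not_eq_true, meetB_iff]
    intro h4
    exact h ⟨i, hi⟩ ⟨j, hj⟩ h2 h3 ⟨fun h' => h1 (Fin.ext_iff.1 h'), h4⟩

theorem splB_iff (l : List (ℕ × ℕ)) : splB l = true ↔ IsSplit (intervalGraph l) := by
  classical
  rw [splB, List.any_eq_true]
  constructor
  · rintro ⟨t, _, ht⟩
    rw [spl1_iff] at ht
    refine ⟨{i | l[i].1 ≤ t ∧ t ≤ l[i].2}, ?_, ?_⟩
    · intro a ha b hb hab
      exact ⟨hab, t, ha, hb⟩
    · intro a ha b hb _
      exact ht a b ha hb
  · rintro ⟨K, hK, hI⟩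
    -- the nonempty intervals of the clique
    by_cases hne : ∃ j : Fin l.length, j ∈ K ∧ l[j].1 ≤ l[j].2
    · obtain ⟨j, hj, hmax⟩ := Finset.exists_max_image
        (Finset.univ.filter (fun j : Fin l.length => j ∈ K ∧ l[j].1 ≤ l[j].2))
        (fun j => l[j].1) (by
          obtain ⟨j, hj⟩ := hne
          exact ⟨j, Finset.mem_filter.2 ⟨Finset.mem_univ _, hj⟩⟩)
      rw [Finset.mem_filter] at hj
      refine ⟨l[j].1, List.mem_cons_of_mem _ (List.mem_map.2 ⟨l[j], List.getElem_mem _, rfl⟩), ?_⟩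
      rw [spl1_iff]
      have key : ∀ a : Fin l.length, a ∈ K → l[a].1 ≤ l[a].2 → l[a].1 ≤ l[j].1 ∧ l[j].1 ≤ l[a].2 := by
        intro a ha ha2
        refine ⟨hmax a (Finset.mem_filter.2 ⟨Finset.mem_univ _, ha, ha2⟩), ?_⟩
        by_cases haj : a = j
        · rw [haj]
          exact hj.2.2
        · obtain ⟨_, s, h1, h2⟩ := hK ha hj.2.1 haj
          exact h2.1.trans h1.2
      intro a b ha hb hab
      obtain ⟨_, s, h1, h2⟩ := id hab
      have ha' : a ∉ K := fun h => ha (key a h (h1.1.trans h1.2))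
      have hb' : b ∉ K := fun h => hb (key b h (h2.1.trans h2.2))
      exact hI ha' hb' hab.ne hab
    · push Not at hne
      refine ⟨0, List.mem_cons_self, ?_⟩
      rw [spl1_iff]
      intro a b _ _ hab
      obtain ⟨_, s, h1, h2⟩ := id hab
      have ha' : a ∉ K := fun h => absurd (hne a h) (by have := h1.1.trans h1.2; omega)
      have hb' : b ∉ K := fun h => absurd (hne b h) (by have := h2.1.trans h2.2; omega)
      exact hI ha' hb' hab.ne hab

theorem splB_poly : Poly splB := by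
  have hl : Poly (fun x : ((List (ℕ × ℕ) × ℕ) × ℕ) × ℕ => x.1.1.1) :=
    Poly.fst (Poly.fst (Poly.fst Poly.id))
  have ht : Poly (fun x : ((List (ℕ × ℕ) × ℕ) × ℕ) × ℕ => x.1.1.2) :=
    Poly.snd (Poly.fst (Poly.fst Poly.id))
  have hi : Poly (fun x : ((List (ℕ × ℕ) × ℕ) × ℕ) × ℕ => x.1.2) := Poly.snd (Poly.fst Poly.id)
  have hj : Poly (fun x : ((List (ℕ × ℕ) × ℕ) × ℕ) × ℕ => x.2) := Poly.snd Poly.id
  have h1 : Poly (fun x : ((List (ℕ × ℕ) × ℕ) × ℕ) × ℕ => x.1.1.1.getD x.1.2 (0, 0)) :=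
    Poly.getD hl hi (Poly.const (0, 0))
  have h2 : Poly (fun x : ((List (ℕ × ℕ) × ℕ) × ℕ) × ℕ => x.1.1.1.getD x.2 (0, 0)) :=
    Poly.getD hl hj (Poly.const (0, 0))
  have h3 : Poly (fun x : ((List (ℕ × ℕ) × ℕ) × ℕ) × ℕ =>
      meetB (x.1.1.1.getD x.1.2 (0, 0)) (x.1.1.1.getD x.2 (0, 0))) :=
    Poly.decide_le (Poly.max (Poly.fst h1) (Poly.fst h2)) (Poly.min (Poly.snd h1) (Poly.snd h2))
  have h4 : Poly (fun x : ((List (ℕ × ℕ) × ℕ) × ℕ) × ℕ =>
      inB x.1.1.2 (x.1.1.1.getD x.1.2 (0, 0))) :=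
    Poly.and (Poly.decide_le (Poly.fst h1) ht) (Poly.decide_le ht (Poly.snd h1))
  have h5 : Poly (fun x : ((List (ℕ × ℕ) × ℕ) × ℕ) × ℕ =>
      inB x.1.1.2 (x.1.1.1.getD x.2 (0, 0))) :=
    Poly.and (Poly.decide_le (Poly.fst h2) ht) (Poly.decide_le ht (Poly.snd h2))
  have h6 : Poly spl3 := Poly.or (Poly.decide_eq hi hj) (Poly.or h4 (Poly.or h5 (Poly.not h3)))
  have h7 : Poly spl1 := by
    refine Poly.all (p := fun (x : List (ℕ × ℕ) × ℕ) i =>
      (List.range x.1.length).all fun j => spl3 ((x, i), j)) (Poly.range_length (Poly.fst Poly.id)) ?_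
    exact Poly.all (p := fun (x : (List (ℕ × ℕ) × ℕ) × ℕ) j => spl3 (x, j))
      (Poly.range_length (Poly.fst (Poly.fst Poly.id))) h6
  exact Poly.any (p := fun (l : List (ℕ × ℕ)) t => spl1 (l, t))
    (Poly.cons (Poly.const 0) (Poly.map (F := fun (_ : List (ℕ × ℕ)) (r : ℕ × ℕ) => r.1) Poly.id
      (Poly.fst (Poly.snd Poly.id)))) h7

theorem card_and (b : Bool) (p : List ℕ → Bool) :
    Nat.card {w : List ℕ // (b && p w) = true} =
      if b = true then Nat.card {w : List ℕ // p w = true} else 0 := by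
  cases b with
  | false => simp
  | true => simp

theorem sharpP_pmSplit : SharpP (strFn pmSplit) := by
  have h := sharpP_typed (fun l w => splB l && cert l w)
    (Poly.and (splB_poly.comp (Poly.fst Poly.id)) cert_poly)
    (Polynomial.X * (Polynomial.C 4 * Polynomial.X + Polynomial.C 2) + Polynomial.C 1) ?_
  · have e : (fun l : List (ℕ × ℕ) => Nat.card {w : List ℕ // (splB l && cert l w) = true}) =
        pmSplit := by
      funext l
      rw [card_and, card_cert, pmSplit]
      by_cases h : splB l = true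
      · rw [if_pos h, if_pos ((splB_iff l).1 h)]
      · rw [if_neg h, if_neg (fun h' => h ((splB_iff l).2 h'))]
    rw [e] at h
    exact h
  · intro l w hc
    rw [Bool.and_eq_true] at hc
    obtain ⟨hlen, f, hf1, hf2⟩ := (cert_iff l w).1 hc.2
    have h1 : ∀ a ∈ w, sz a ≤ 4 * l.length + 1 := by
      intro a ha
      obtain ⟨i, hi, rfl⟩ := List.mem_iff_getElem.1 ha
      have h2 : w[i] < l.length := by
        rw [← hf1 ⟨i, by omega⟩]
        exact (f _).2
      have h3 := sz_nat_le w[i]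
      have h4 : (w[i]).size ≤ w[i] := Nat.size_le.2 Nat.lt_two_pow_self
      omega
    have h2 := sz_le_length_mul w _ h1
    have h3 := length_lt_sz l
    simp only [Polynomial.eval_add, Polynomial.eval_mul, Polynomial.eval_X, Polynomial.eval_C]
    have h4 : w.length * (4 * l.length + 1 + 1) ≤ sz l * (4 * sz l + 2) :=
      Nat.mul_le_mul (by omega) (by omega)
    omega

theorem sharpP_numMSplit : SharpP (strFn numMSplit) := by
  have h := sharpP_typed (fun l w => splB l && certM l w)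
    (Poly.and (splB_poly.comp (Poly.fst Poly.id)) certM_poly)
    (Polynomial.X * (Polynomial.C 4 * Polynomial.X + Polynomial.C 2) + Polynomial.C 1) ?_
  · have e : (fun l : List (ℕ × ℕ) => Nat.card {w : List ℕ // (splB l && certM l w) = true}) =
        numMSplit := by
      funext l
      rw [card_and, card_certM, numMSplit]
      by_cases h : splB l = true
      · rw [if_pos h, if_pos ((splB_iff l).1 h)]
      · rw [if_neg h, if_neg (fun h' => h ((splB_iff l).2 h'))]
    rw [e] at h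
    exact h
  · intro l w hc
    rw [Bool.and_eq_true] at hc
    obtain ⟨hlen, f, hf1, hf2⟩ := (certM_iff l w).1 hc.2
    have h1 : ∀ a ∈ w, sz a ≤ 4 * l.length + 1 := by
      intro a ha
      obtain ⟨i, hi, rfl⟩ := List.mem_iff_getElem.1 ha
      have h2 : w[i] < l.length := by
        rw [← hf1 ⟨i, by omega⟩]
        exact (f _).2
      have h3 := sz_nat_le w[i]
      have h4 : (w[i]).size ≤ w[i] := Nat.size_le.2 Nat.lt_two_pow_self
      omega
    have h2 := sz_le_length_mul w _ h1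
    have h3 := length_lt_sz l
    simp only [Polynomial.eval_add, Polynomial.eval_mul, Polynomial.eval_X, Polynomial.eval_C]
    have h4 : w.length * (4 * l.length + 1 + 1) ≤ sz l * (4 * sz l + 2) :=
      Nat.mul_le_mul (by omega) (by omega)
    omega

end Pool.Agent.NPC.TH925SI
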